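import Mathlib

/-!
# Countability of number fields and their algebraic closures
-/

set_option autoImplicit false

namespace Pool.Agent.Run7.h316.EQ.Cnt

theorem countable_nf (K : Type) [Field K] [NumberField K] : Countable K := by
  have h := Algebra.IsAlgebraic.cardinalMk_le_max ℚ K
  rw [← Cardinal.mk_le_aleph0_iff]
  refine h.trans ?_
  rw [Cardinal.mkRat, max_self]

theorem countable_cl (K : Type) [Field K] [NumberField K] : Countable (AlgebraicClosure K) := by
  have hK := countable_nf K
  have h := Algebra.IsAlgebraic.cardinalMk_le_max K (AlgebraicClosure K)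
  rw [← Cardinal.mk_le_aleph0_iff]
  refine h.trans ?_
  rw [max_le_iff]
  exact ⟨Cardinal.mk_le_aleph0_iff.2 inferInstance, le_rfl⟩

theorem countable_mv (O : Type) [CommRing O] [Countable O] (k : ℕ) :
    Countable (MvPolynomial (Fin k) O) := by
  rw [← Cardinal.mk_le_aleph0_iff]
  refine MvPolynomial.cardinalMk_le_max.trans ?_
  exact max_le (max_le (Cardinal.mk_le_aleph0_iff.2 inferInstance)
    (Cardinal.mk_le_aleph0_iff.2 inferInstance)) le_rfl

end Pool.Agent.Run7.h316.EQ.Cnt
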