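import Pool.Agent.Run7.h316.EQ.Typ
import Pool.Agent.Run7.h316.EQ.Cnt

/-!
# Robust properties, for all finite extensions of a number field and countably many data at once
-/

set_option autoImplicit false

namespace Pool.Agent.Run7.h316.EQ

/-- properties given by strongly null sets for all finite extensions of `K` and countably many data over
each of them are robust -/
theorem robust_ext {K : Type} [Field K] [NumberField K] {ι : Type} [Fintype ι] [DecidableEq ι]
    [Nonempty ι] (D : ∀ (E : Type) [Field E], Type)
    (hD : ∀ (E : Type) [Field E], Countable E → Countable (D E))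
    (G : ∀ (E : Type) [Field E] [Algebra K E], D E → (ι → ℤ) → Prop)
    (hG : ∀ (E : Type) [Field E] [NumberField E] [Algebra K E] (t : D E),
      StrongNull {c : ι → ℤ | ¬ G E t c})
    (Q : ∀ Ω : Type, (ℕ → Finset Ω) → (Ω → ι → ℤ) → Prop)
    (hQ : ∀ (Ω : Type) (S : ℕ → Finset Ω) (c : Ω → ι → ℤ),
      (∀ E : IntermediateField K (AlgebraicClosure K), FiniteDimensional K E → ∀ t : D E,
        Rare S c {c : ι → ℤ | ¬ G E t c}) → Q Ω S c) :
    Robust Q := by
  classical
  have hcK : Countable (AlgebraicClosure K) := Pool.Agent.Run7.h316.EQ.Cnt.countable_cl K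
  have hc : ∀ T : Finset (AlgebraicClosure K),
      Countable (D (IntermediateField.adjoin K (T : Set (AlgebraicClosure K)))) :=
    fun T => hD _ inferInstance
  refine robust_countable
    (I := {i : Σ T : Finset (AlgebraicClosure K),
      D (IntermediateField.adjoin K (T : Set (AlgebraicClosure K))) //
      FiniteDimensional K (IntermediateField.adjoin K (i.1 : Set (AlgebraicClosure K)))})
    (fun i => {c | ¬ G (IntermediateField.adjoin K (i.1.1 : Set (AlgebraicClosure K))) i.1.2 c}) ?_
    _ ?_
  · rintro ⟨⟨T, t⟩, hfd⟩
    have hnf : NumberField (IntermediateField.adjoin K (T : Set (AlgebraicClosure K))) := by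
      have : CharZero (IntermediateField.adjoin K (T : Set (AlgebraicClosure K))) :=
        charZero_of_injective_algebraMap (algebraMap K _).injective
      have : FiniteDimensional ℚ (IntermediateField.adjoin K (T : Set (AlgebraicClosure K))) :=
        FiniteDimensional.trans ℚ K _
      exact ⟨⟩
    exact hG _ t
  · intro Ω S c hR
    refine hQ Ω S c fun E hE t => ?_
    obtain ⟨T, hT⟩ : E.FG := by
      refine IntermediateField.fg_of_fg_toSubalgebra E ?_
      rw [Subalgebra.fg_iff_finiteType]
      have : FiniteDimensional K E.toSubalgebra := hE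
      infer_instance
    subst hT
    exact hR ⟨⟨T, t⟩, hE⟩

end Pool.Agent.Run7.h316.EQ
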