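import Pool.Agent.Run7.h316.EQ.Tests
import Pool.Agent.N140.RO.Sv
import Pool.Agent.N140.RO.Sv2

/-!
# The sieve at the primes of degree one of an extension field gives very null sets

Compare `Pool.Agent.N140.RO.pro_sieve` and `Pool.Agent.N140.RO.Two2.pro_sieve` (helper140).
-/

set_option autoImplicit false

namespace Pool.Agent.Run7.h316.EQ.Sv

open NumberField Pool.Agent.Run7.h316.EQ Pool.Agent.N140.RO

theorem exists_const {δ : ℝ} (hδ : 0 < δ) : ∃ C : ℕ, 0 < C ∧ ∀ (x : ℕ) (y : ℕ),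
    δ * (x : ℝ) ≤ (y : ℝ) → x ≤ C * y := by
  obtain ⟨C, hC⟩ := exists_nat_gt (1 / δ)
  have hC0 : (0 : ℝ) < C := lt_trans (by positivity) hC
  refine ⟨C, by exact_mod_cast hC0, fun x y h => ?_⟩
  have h4 : 1 < C * δ := by rwa [div_lt_iff₀ hδ] at hC
  have h5 : (x : ℝ) ≤ C * (y : ℝ) := by
    have h6 : (0 : ℝ) ≤ x := Nat.cast_nonneg _
    have h7 : (C : ℝ) * (δ * x) ≤ C * y := mul_le_mul_of_nonneg_left h hC0.le
    nlinarith
  exact_mod_cast h5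

/-- **The sieve.** -/
theorem very_sieve {K E : Type} [Field K] [Field E] [NumberField E] [Algebra K E]
    {J I : Type} [Fintype J] [Fintype I] (ω : Module.Basis J ℤ (𝓞 K)) (B : ℕ)
    (Ev : ∀ P : Ideal (𝓞 E), Set (I → 𝓞 E ⧸ P)) {δ : ℝ} (hδ : 0 < δ)
    (hE : ∀ P ∈ Big E B, δ * (Nat.card (𝓞 E ⧸ P) : ℝ) ^ Fintype.card I ≤ ((Ev P).ncard : ℝ)) :
    VeryNull {c : I × J → ℤ | ∀ P ∈ Big E B,
      (fun i => Ideal.Quotient.mk P (algebraMap (𝓞 K) (𝓞 E) (vec ω c i))) ∉ Ev P} := by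
  obtain ⟨C, hC0, hC⟩ := exists_const hδ
  refine veryNull_of_tests hC0 fun N₀ => ?_
  obtain ⟨p, hp, hnp, P, hP, hc, hs⟩ := exists_big E B N₀
  refine ⟨p, hnp.le, hp, Om ω B Ev p, ?_, ?_⟩
  · have h1 := dens_Om ω B Ev hE P hP hc hs
    exact hC _ _ (by push_cast; exact h1)
  · intro c hc hmem
    obtain ⟨P, hP, h⟩ := of_mem_Om ω B Ev hp.pos hmem
    exact hc P hP h

/-- **The sieve, avoiding one element.** -/
theorem very_sieve2 {K E : Type} [Field K] [Field E] [NumberField E] [Algebra K E]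
    {J I : Type} [Fintype J] [Fintype I] (ω : Module.Basis J ℤ (𝓞 K)) (B : ℕ) {c₀ : 𝓞 E}
    (h₀ : c₀ ≠ 0) (Ev : ∀ P : Ideal (𝓞 E), Set (I → 𝓞 E ⧸ P)) {δ : ℝ} (hδ : 0 < δ)
    (hE : ∀ P ∈ Two2.Big E B c₀,
      δ * (Nat.card (𝓞 E ⧸ P) : ℝ) ^ Fintype.card I ≤ ((Ev P).ncard : ℝ)) :
    VeryNull {c : I × J → ℤ | ∀ P ∈ Two2.Big E B c₀,
      (fun i => Ideal.Quotient.mk P (algebraMap (𝓞 K) (𝓞 E) (vec ω c i))) ∉ Ev P} := by
  obtain ⟨C, hC0, hC⟩ := exists_const hδ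
  refine veryNull_of_tests hC0 fun N₀ => ?_
  obtain ⟨p, hp, hnp, P, hP, hc, hs⟩ := Two2.exists_big E B N₀ c₀ h₀
  refine ⟨p, hnp.le, hp, Two2.Om ω B c₀ Ev p, ?_, ?_⟩
  · have h1 := Two2.dens_Om ω B c₀ Ev hE P hP hc hs
    exact hC _ _ (by push_cast; exact h1)
  · intro c hc hmem
    obtain ⟨P, hP, h⟩ := Two2.of_mem_Om ω B c₀ Ev hp.pos hmem
    exact hc P hP h

theorem veryNull_of {ι σ : Type} [Fintype ι] [Finite σ] (A : σ → Set (ι → ℤ)) (B : Set (ι → ℤ))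
    (h : ∀ s, VeryNull (A s)) (hB : ∀ c ∈ B, ∃ s, c ∈ A s) : VeryNull B :=
  VeryNull.mono (fun c hc => Set.mem_iUnion.2 (hB c hc)) (VeryNull.iUnion h)

end Pool.Agent.Run7.h316.EQ.Sv
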