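import Pool.Agent.TH869.EVF.AP

/-!
# An upper bound for the number of primes in a residue class
-/

set_option autoImplicit false

namespace Pool.Agent.Run7.h316.EQ

open Finset Filter Topology ArithmeticFunction

/-- the primes `p ≤ H` -/
def primesTo (H : ℕ) : Finset ℕ := (range (H + 1)).filter Nat.Prime

theorem pi_lower : ∀ᶠ x : ℝ in atTop, x / (4 * Real.log x) ≤ (primesTo ⌊x⌋₊).card := by
  have h1 := Pool.Agent.TH869.EVF.PA_eventually 1 0 one_pos (Nat.coprime_one_right 0)
  filter_upwards [h1, eventually_gt_atTop (1 : ℝ)] with x h hx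
  have hl : 0 < Real.log x := Real.log_pos hx
  rw [div_le_iff₀ (by positivity)]
  have h2 : (Pool.Agent.TH869.EVF.PA 1 0 x).card ≤ (primesTo ⌊x⌋₊).card := by
    refine card_le_card ?_
    intro p hp
    unfold Pool.Agent.TH869.EVF.PA at hp
    unfold primesTo
    rw [mem_filter, mem_Icc] at hp
    rw [mem_filter, mem_range]
    exact ⟨by omega, hp.2.1⟩
  have h3 : ((Pool.Agent.TH869.EVF.PA 1 0 x).card : ℝ) ≤ (primesTo ⌊x⌋₊).card := by
    exact_mod_cast h2
  simp only [Nat.totient_one, Nat.cast_one, inv_one] at h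
  nlinarith [mul_le_mul_of_nonneg_right h3 hl.le]

theorem sum_lower (q : ℕ) [NeZero q] (a : ZMod q) (x : ℝ) (hx : 1 < x) :
    ((((range (⌊x⌋₊ + 1)).filter (fun p : ℕ => p.Prime ∧ ((p : ℕ) : ZMod q) = a)).card : ℕ) : ℝ) ≤
      (Real.sqrt x + 1) + 2 * (∑ k ∈ Icc 1 ⌊x⌋₊, vonMangoldt.residueClass a k) / Real.log x := by
  classical
  have hl : 0 < Real.log x := Real.log_pos hx
  have hx0 : (0 : ℝ) < x := by linarith
  set A := (range (⌊x⌋₊ + 1)).filter (fun p : ℕ => p.Prime ∧ ((p : ℕ) : ZMod q) = a) with hA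
  set A1 := A.filter (fun p => p ≤ ⌊Real.sqrt x⌋₊) with hA1
  set A2 := A.filter (fun p => ¬ p ≤ ⌊Real.sqrt x⌋₊) with hA2
  have h0 : A.card = A1.card + A2.card := (card_filter_add_card_filter_not (s := A) _).symm
  have h1 : (A1.card : ℝ) ≤ Real.sqrt x + 1 := by
    have h2 : A1 ⊆ range (⌊Real.sqrt x⌋₊ + 1) := by
      intro p hp
      rw [hA1, mem_filter] at hp
      rw [mem_range]
      omega
    have h3 := card_le_card h2
    rw [card_range] at h3
    have h4 : ((⌊Real.sqrt x⌋₊ : ℕ) : ℝ) ≤ Real.sqrt x := Nat.floor_le (Real.sqrt_nonneg x)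
    have h5 : (A1.card : ℝ) ≤ ((⌊Real.sqrt x⌋₊ + 1 : ℕ) : ℝ) := by exact_mod_cast h3
    push_cast at h5
    linarith
  have h2 : (A2.card : ℝ) * (Real.log x / 2) ≤
      ∑ k ∈ Icc 1 ⌊x⌋₊, vonMangoldt.residueClass a k := by
    have h3 : ∑ p ∈ A2, vonMangoldt.residueClass a p ≤
        ∑ k ∈ Icc 1 ⌊x⌋₊, vonMangoldt.residueClass a k := by
      refine sum_le_sum_of_subset_of_nonneg ?_ fun k _ _ => vonMangoldt.residueClass_nonneg a k
      intro p hp
      rw [hA2, mem_filter, hA, mem_filter, mem_range] at hp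
      rw [mem_Icc]
      exact ⟨hp.1.2.1.one_lt.le, by omega⟩
    refine le_trans ?_ h3
    rw [← nsmul_eq_mul, ← sum_const]
    refine sum_le_sum fun p hp => ?_
    rw [hA2, mem_filter, hA, mem_filter, mem_range] at hp
    obtain ⟨⟨_, hp1, hp2⟩, hp3⟩ := hp
    have h4 : vonMangoldt.residueClass a p = Real.log p := by
      rw [vonMangoldt.residueClass, Set.indicator_of_mem (show p ∈ {n : ℕ | (n : ZMod q) = a} from hp2),
        vonMangoldt_apply_prime hp1]
    rw [h4]
    have h5 : Real.sqrt x ≤ p := by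
      rw [not_le] at hp3
      exact ((Nat.floor_lt (Real.sqrt_nonneg x)).1 hp3).le
    have h6 : Real.log (Real.sqrt x) = Real.log x / 2 := Real.log_sqrt hx0.le
    rw [← h6]
    exact Real.log_le_log (Real.sqrt_pos.2 hx0) h5
  have h3 : (A2.card : ℝ) ≤
      2 * (∑ k ∈ Icc 1 ⌊x⌋₊, vonMangoldt.residueClass a k) / Real.log x := by
    rw [le_div_iff₀ hl]
    linarith
  rw [h0]
  push_cast
  linarith

theorem sqrt_le (φ : ℝ) (hφ : 0 < φ) :
    ∀ᶠ x : ℝ in atTop, Real.sqrt x + 1 ≤ φ * (x / (4 * Real.log x)) := by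
  have h1 := (isLittleO_log_rpow_atTop (show (0 : ℝ) < 1 / 4 by norm_num)).def
    (show (0 : ℝ) < 1 by norm_num)
  have h2 := (tendsto_rpow_atTop (show (0 : ℝ) < 1 / 4 by norm_num)).eventually_ge_atTop (8 / φ)
  filter_upwards [h1, h2, eventually_gt_atTop (1 : ℝ)] with x h1 h2 hx
  have hl : 0 < Real.log x := Real.log_pos hx
  have hx0 : (0 : ℝ) < x := by linarith
  have hq0 : (0 : ℝ) < x ^ (1 / 4 : ℝ) := Real.rpow_pos_of_pos hx0 _
  rw [one_mul, Real.norm_eq_abs, abs_of_pos hl, Real.norm_eq_abs, abs_of_pos hq0] at h1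
  set y := x ^ (1 / 4 : ℝ) with hy
  have hy4 : y ^ 4 = x := by
    rw [hy, ← Real.rpow_natCast, ← Real.rpow_mul hx0.le]
    norm_num
  have hsq : Real.sqrt x = y ^ 2 := by
    rw [← hy4, show y ^ 4 = (y ^ 2) ^ 2 by ring]
    exact Real.sqrt_sq (by positivity)
  have hy1 : 1 ≤ y := Real.one_le_rpow hx.le (by norm_num)
  rw [← mul_div_assoc, le_div_iff₀ (by positivity), hsq]
  rw [div_le_iff₀ hφ] at h2
  have h3 : (y ^ 2 + 1) * (4 * Real.log x) ≤ (2 * y ^ 2) * (4 * y) := by
    refine mul_le_mul (by nlinarith) (by linarith) (by positivity) (by positivity)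
  refine h3.trans ?_
  rw [← hy4]
  have h4 : 8 * y ^ 3 ≤ y * φ * y ^ 3 := mul_le_mul_of_nonneg_right h2 (by positivity)
  nlinarith

/-- the primes `p ≤ H` in a class modulo `q` -/
theorem class_upper (q : ℕ) (hq : 0 < q) : ∃ H₀ : ℕ, ∀ H : ℕ, H₀ ≤ H → ∀ a : ZMod q,
    ((((range (H + 1)).filter (fun p : ℕ => p.Prime ∧ ((p : ℕ) : ZMod q) = a)).card : ℕ) : ℝ) ≤
      20 / q.totient * (primesTo H).card := by
  classical
  haveI : NeZero q := ⟨hq.ne'⟩
  have hφ : (0 : ℝ) < q.totient := by exact_mod_cast Nat.totient_pos.2 hq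
  have key : ∀ a : ZMod q, ∀ᶠ H : ℕ in atTop,
      ((((range (H + 1)).filter (fun p : ℕ => p.Prime ∧ ((p : ℕ) : ZMod q) = a)).card : ℕ) : ℝ) ≤
      20 / q.totient * (primesTo H).card := by
    intro a
    have hpi : ∀ᶠ H : ℕ in atTop, (H : ℝ) / (4 * Real.log H) ≤ (primesTo H).card := by
      have h1 := tendsto_natCast_atTop_atTop.eventually pi_lower
      filter_upwards [h1] with H h
      rwa [Nat.floor_natCast] at h
    have hsq : ∀ᶠ H : ℕ in atTop, Real.sqrt H + 1 ≤ (1 / q.totient : ℝ) * (H / (4 * Real.log H)) :=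
      tendsto_natCast_atTop_atTop.eventually (sqrt_le (1 / q.totient) (by positivity))
    by_cases ha : IsUnit a
    · have h1 := Pool.Agent.Helper923.PNT.pnt_residueClass ha
      have h2 := (h1.eventually (gt_mem_nhds (show ((q.totient : ℝ))⁻¹ < 2 * (q.totient : ℝ)⁻¹ by
        have : (0 : ℝ) < (q.totient : ℝ)⁻¹ := by positivity
        linarith)))
      have h3 := tendsto_natCast_atTop_atTop.eventually h2
      filter_upwards [hpi, hsq, h3, eventually_gt_atTop 1] with H h4 h5 h6 h7
      have hH : (1 : ℝ) < H := by exact_mod_cast h7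
      have hl : 0 < Real.log H := Real.log_pos hH
      rw [div_lt_iff₀ (by linarith)] at h6
      have h8 := sum_lower q a (H : ℝ) hH
      rw [Nat.floor_natCast] at h8
      rw [Nat.floor_natCast] at h6
      refine h8.trans ?_
      have h9 : 2 * (∑ k ∈ Icc 1 H, vonMangoldt.residueClass a k) / Real.log H ≤
          16 / q.totient * (primesTo H).card := by
        rw [div_le_iff₀ hl]
        have h10 : (H : ℝ) ≤ 4 * Real.log H * (primesTo H).card := by
          rw [div_le_iff₀ (by positivity)] at h4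
          linarith
        calc 2 * (∑ k ∈ Icc 1 H, vonMangoldt.residueClass a k) ≤
            2 * (2 * (q.totient : ℝ)⁻¹ * H) := by linarith
          _ ≤ 2 * (2 * (q.totient : ℝ)⁻¹ * (4 * Real.log H * (primesTo H).card)) := by
              gcongr
          _ = 16 / q.totient * (primesTo H).card * Real.log H := by
              field_simp
              ring
      have h11 : Real.sqrt H + 1 ≤ 1 / q.totient * (primesTo H).card :=
        h5.trans (mul_le_mul_of_nonneg_left h4 (by positivity))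
      have h12 : (20 : ℝ) / q.totient * (primesTo H).card =
          1 / q.totient * (primesTo H).card + 16 / q.totient * (primesTo H).card +
            3 / q.totient * (primesTo H).card := by ring
      have h13 : (0 : ℝ) ≤ 3 / q.totient * (primesTo H).card := by positivity
      linarith
    · have hpi2 : ∀ᶠ H : ℕ in atTop, (q : ℝ) + 1 ≤ Real.sqrt H + 1 := by
        have h1 := (Real.tendsto_sqrt_atTop.comp tendsto_natCast_atTop_atTop).eventually_ge_atTop
          (q : ℝ)
        filter_upwards [h1] with H h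
        simp only [Function.comp] at h
        linarith
      filter_upwards [hpi, hsq, hpi2] with H h4 h5 h6
      have h7 : (range (H + 1)).filter (fun p : ℕ => p.Prime ∧ ((p : ℕ) : ZMod q) = a) ⊆ range (q + 1) := by
        intro p hp
        rw [mem_filter] at hp
        rw [mem_range]
        obtain ⟨_, hp1, hp2⟩ := hp
        by_contra hcon
        apply ha
        rw [← hp2, ZMod.isUnit_iff_coprime]
        exact (hp1.coprime_iff_not_dvd).2 fun hd => by
          have := Nat.le_of_dvd hq hd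
          omega
      have h8 := card_le_card h7
      rw [card_range] at h8
      have h9 : ((((range (H + 1)).filter (fun p : ℕ => p.Prime ∧ ((p : ℕ) : ZMod q) = a)).card : ℕ) : ℝ) ≤
          (q : ℝ) + 1 := by exact_mod_cast h8
      have h11 : Real.sqrt H + 1 ≤ 1 / q.totient * (primesTo H).card :=
        h5.trans (mul_le_mul_of_nonneg_left h4 (by positivity))
      have h12 : (20 : ℝ) / q.totient * (primesTo H).card =
          1 / q.totient * (primesTo H).card + 19 / q.totient * (primesTo H).card := by ring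
      have h13 : (0 : ℝ) ≤ 19 / q.totient * (primesTo H).card := by positivity
      linarith
  obtain ⟨H₀, hH⟩ := eventually_atTop.1 (eventually_all.2 key)
  exact ⟨H₀, hH⟩

end Pool.Agent.Run7.h316.EQ
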