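import Pool.Agent.Run7.h316.EQ.Null
import Pool.Agent.Run7.h316.EQ.Primes
import Pool.Agent.N918.EQ.Typ
import Pool.Agent.N666.TM.Thin

/-!
# Families of integral vectors which almost avoid the strongly null sets

Dominated families (equidistributed sequences, vectors of primes, ...), metric sequences, random orbits,
generalised polynomials.
-/

set_option autoImplicit false

namespace Pool.Agent.Run7.h316.EQ

open Filter Topology MeasureTheory
open Pool.Agent.N24.RW (ProNull Walk orb words)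
open Pool.Agent.N24.KM (Koksma Rarely Metric)

section

variable {ι : Type} [Fintype ι]

/-- The family of integral vectors `c w`, `w` in `Ω`, is dominated along the finite sets `S N`: there are
`C`, `A` and `M` such that for all squarefree `q` prime to `M` the proportion of the `w` in `S N` for which
`c w` is in a given class modulo `q` is at most `C (q / φ(q)) ^ A q ^ (-r) + o(1)`, `N → ∞`. -/
def Dominated {Ω : Type} (S : ℕ → Finset Ω) (c : Ω → ι → ℤ) : Prop :=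
  ∃ (C : ℝ) (A M : ℕ), 0 < M ∧ ∀ q : ℕ, Squarefree q → q.Coprime M →
    ∀ (a : ι → ZMod q) (ε : ℝ), 0 < ε → ∃ N₀ : ℕ, ∀ N : ℕ, N₀ ≤ N →
      (({w : Ω | w ∈ S N ∧ ∀ i, ((c w i : ℤ) : ZMod q) = a i}.ncard : ℕ) : ℝ) ≤
        (C * ((q : ℝ) / q.totient) ^ A * ((q : ℝ) ^ Fintype.card ι)⁻¹ + ε) * (S N).card

/-- The proportion of the `w` in `S N` with `c w` in `B` tends to zero. -/
def Rare {Ω : Type} (S : ℕ → Finset Ω) (c : Ω → ι → ℤ) (B : Set (ι → ℤ)) : Prop :=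
  ∀ ε : ℝ, 0 < ε → ∃ N₀ : ℕ, ∀ N : ℕ, N₀ ≤ N →
    (({w : Ω | w ∈ S N ∧ c w ∈ B}.ncard : ℕ) : ℝ) ≤ ε * (S N).card

theorem rare_of_dominated {Ω : Type} {S : ℕ → Finset Ω} {c : Ω → ι → ℤ} {B : Set (ι → ℤ)}
    (hc : Dominated S c) (hB : StrongNull B) : Rare S c B := by
  classical
  intro ε hε
  obtain ⟨C, A, M, hM, hc⟩ := hc
  set C' : ℝ := max C 1 with hC'
  have hC1 : (1 : ℝ) ≤ C' := le_max_right _ _
  have hCC : C ≤ C' := le_max_left _ _
  obtain ⟨q, hq, hqM, hb⟩ := hB M hM A (ε / (2 * C')) (by positivity)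
  have : NeZero q := ⟨hq.ne_zero⟩
  have hq0 : 0 < q := Nat.pos_of_ne_zero hq.ne_zero
  have hqr : (0 : ℝ) < q := by exact_mod_cast hq0
  obtain ⟨I, hI⟩ : ∃ I : Set (ι → ZMod q), I = (fun (c : ι → ℤ) (i : ι) => (c i : ZMod q)) '' B :=
    ⟨_, rfl⟩
  rw [← hI] at hb
  have hIf : I.Finite := Set.toFinite _
  have hδ : (0 : ℝ) < ε / (2 * (I.ncard + 1)) := by positivity
  choose N₀ hN₀ using fun a : ι → ZMod q => hc q hq hqM a (ε / (2 * (I.ncard + 1))) hδ
  refine ⟨Finset.univ.sup N₀, fun N hN => ?_⟩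
  have hsub : {w : Ω | w ∈ S N ∧ c w ∈ B} ⊆
      ⋃ a ∈ hIf.toFinset, {w : Ω | w ∈ S N ∧ ∀ i, ((c w i : ℤ) : ZMod q) = a i} := by
    intro n hn
    rw [Set.mem_iUnion₂]
    refine ⟨fun i => ((c n i : ℤ) : ZMod q), ?_, hn.1, fun i => rfl⟩
    rw [Set.Finite.mem_toFinset, hI]
    exact ⟨_, hn.2, rfl⟩
  have hfin : (⋃ a ∈ hIf.toFinset,
      {w : Ω | w ∈ S N ∧ ∀ i, ((c w i : ℤ) : ZMod q) = a i}).Finite := by
    refine (S N).finite_toSet.subset ?_
    intro n hn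
    rw [Set.mem_iUnion₂] at hn
    obtain ⟨a, _, hn⟩ := hn
    exact hn.1
  have h3 := (Set.ncard_le_ncard hsub hfin).trans
    (Finset.set_ncard_biUnion_le hIf.toFinset
      (fun a => {w : Ω | w ∈ S N ∧ ∀ i, ((c w i : ℤ) : ZMod q) = a i}))
  set κ : ℝ := ((q : ℝ) / q.totient) ^ A with hκ
  have hκ0 : 0 ≤ κ := by positivity
  have h4 : (({w : Ω | w ∈ S N ∧ c w ∈ B}.ncard : ℕ) : ℝ) ≤
      ∑ a ∈ hIf.toFinset, (C * κ * ((q : ℝ) ^ Fintype.card ι)⁻¹ +
        ε / (2 * (I.ncard + 1))) * (S N).card := by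
    have h3' : (({w : Ω | w ∈ S N ∧ c w ∈ B}.ncard : ℕ) : ℝ) ≤ ∑ a ∈ hIf.toFinset,
        (({w : Ω | w ∈ S N ∧ ∀ i, ((c w i : ℤ) : ZMod q) = a i}.ncard : ℕ) : ℝ) := by
      exact_mod_cast h3
    refine le_trans h3' (Finset.sum_le_sum fun a _ => ?_)
    exact hN₀ a N ((Finset.le_sup (Finset.mem_univ a)).trans hN)
  refine h4.trans ?_
  rw [Finset.sum_const, nsmul_eq_mul, ← Set.ncard_eq_toFinset_card I hIf, ← mul_assoc]
  refine mul_le_mul_of_nonneg_right ?_ (Nat.cast_nonneg _)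
  have hqp : (0 : ℝ) < (q : ℝ) ^ Fintype.card ι := by positivity
  have h5 : (I.ncard : ℝ) * (C * κ * ((q : ℝ) ^ Fintype.card ι)⁻¹) ≤ ε / 2 := by
    have h6 : (I.ncard : ℝ) * (C * κ * ((q : ℝ) ^ Fintype.card ι)⁻¹) ≤
        C' * ((I.ncard : ℝ) * κ) * ((q : ℝ) ^ Fintype.card ι)⁻¹ := by
      have h7 : C * (I.ncard * κ * ((q : ℝ) ^ Fintype.card ι)⁻¹) ≤
          C' * (I.ncard * κ * ((q : ℝ) ^ Fintype.card ι)⁻¹) :=
        mul_le_mul_of_nonneg_right hCC (by positivity)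
      calc (I.ncard : ℝ) * (C * κ * ((q : ℝ) ^ Fintype.card ι)⁻¹)
          = C * (I.ncard * κ * ((q : ℝ) ^ Fintype.card ι)⁻¹) := by ring
        _ ≤ C' * (I.ncard * κ * ((q : ℝ) ^ Fintype.card ι)⁻¹) := h7
        _ = _ := by ring
    refine h6.trans ?_
    rw [← div_eq_mul_inv, div_le_iff₀ hqp]
    calc C' * ((I.ncard : ℝ) * κ) ≤ C' * (ε / (2 * C') * (q : ℝ) ^ Fintype.card ι) :=
          mul_le_mul_of_nonneg_left hb (by positivity)
      _ = ε / 2 * (q : ℝ) ^ Fintype.card ι := by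
          field_simp
  have h6 : (I.ncard : ℝ) * (ε / (2 * (I.ncard + 1))) ≤ ε / 2 := by
    rw [mul_div_assoc', div_le_div_iff₀ (by positivity) (by norm_num)]
    nlinarith [hε, (Nat.cast_nonneg I.ncard : (0 : ℝ) ≤ I.ncard)]
  rw [mul_add]
  linarith

omit [Fintype ι] in
theorem rare_of_rareIn {S : ℕ → Finset ℕ} {c : ℕ → ι → ℤ} {B : Set (ι → ℤ)}
    (h : Pool.Agent.N918.EQ.RareIn S c B) : Rare S c B := h

/-- the vectors of primes up to `H` -/
def primeBox (ι : Type) [Fintype ι] [DecidableEq ι] (H : ℕ) : Finset (ι → ℤ) :=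
  Fintype.piFinset fun _ => (primesTo H).map Nat.castEmbedding

theorem dominated_primes [DecidableEq ι] : Dominated (ι := ι) (primeBox ι) id := by
  classical
  refine ⟨20 ^ Fintype.card ι, Fintype.card ι, 1, one_pos, fun q hq _ a ε hε => ?_⟩
  have hq0 : 0 < q := Nat.pos_of_ne_zero hq.ne_zero
  have hφ : (0 : ℝ) < q.totient := by exact_mod_cast Nat.totient_pos.2 hq0
  have hqr : (0 : ℝ) < q := by exact_mod_cast hq0
  obtain ⟨H₀, hH₀⟩ := class_upper q hq0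
  refine ⟨H₀, fun H hH => ?_⟩
  have h1 : {w : ι → ℤ | w ∈ primeBox ι H ∧ ∀ i, ((id w i : ℤ) : ZMod q) = a i} =
      ((Fintype.piFinset fun i => ((Finset.range (H + 1)).filter
        (fun p : ℕ => p.Prime ∧ ((p : ℕ) : ZMod q) = a i)).map Nat.castEmbedding :
          Finset (ι → ℤ)) : Set (ι → ℤ)) := by
    ext w
    simp only [primeBox, primesTo, Set.mem_ofPred_eq, Fintype.mem_piFinset, Finset.mem_coe, Finset.mem_map, Finset.mem_filter,
      Finset.mem_range, Nat.castEmbedding_apply, id_eq]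
    constructor
    · rintro ⟨h1, h2⟩ i
      obtain ⟨p, hp, hpw⟩ := h1 i
      refine ⟨p, ⟨hp.1, hp.2, ?_⟩, hpw⟩
      have h3 := h2 i
      rw [← hpw] at h3
      simpa using h3
    · intro h
      refine ⟨fun i => ?_, fun i => ?_⟩
      · obtain ⟨p, hp, hpw⟩ := h i
        exact ⟨p, ⟨hp.1, hp.2.1⟩, hpw⟩
      · obtain ⟨p, hp, hpw⟩ := h i
        rw [← hpw, ← hp.2.2]
        simp
  rw [h1, Set.ncard_coe_finset, Fintype.card_piFinset, Nat.cast_prod]
  have h2 : ∏ i, ((((((Finset.range (H + 1)).filter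
      (fun p : ℕ => p.Prime ∧ ((p : ℕ) : ZMod q) = a i)).map Nat.castEmbedding :
        Finset ℤ)).card : ℕ) : ℝ) ≤ ∏ _i : ι, (20 / (q.totient : ℝ) * (primesTo H).card) := by
    refine Finset.prod_le_prod (fun i _ => Nat.cast_nonneg _) fun i _ => ?_
    rw [Finset.card_map]
    exact hH₀ H hH (a i)
  refine h2.trans ?_
  rw [Finset.prod_const, Finset.card_univ]
  have h3 : ((primeBox ι H).card : ℝ) = ((primesTo H).card : ℝ) ^ Fintype.card ι := by
    unfold primeBox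
    rw [Fintype.card_piFinset]
    simp [Finset.card_map]
  rw [h3]
  have h4 : (20 : ℝ) ^ Fintype.card ι * ((q : ℝ) / q.totient) ^ Fintype.card ι *
      ((q : ℝ) ^ Fintype.card ι)⁻¹ = (20 / (q.totient : ℝ)) ^ Fintype.card ι := by
    rw [div_pow, div_pow]
    field_simp
  rw [h4, mul_pow, add_mul]
  have h5 : 0 ≤ ε * ((primesTo H).card : ℝ) ^ Fintype.card ι := by positivity
  linarith

/-- The property `Q` of a family of integral vectors `c w`, `w` in `Ω`, along finite sets `S N` is robust: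
(1) all dominated families have it;
(2) for Koksma sequences `f_{i,0}, f_{i,1}, ...` on `[a_i, b_i]` and almost all `x` in the box
`c n = (⌊f_{i,n}(x_i)⌋)_i` has it, along `{0, ..., N - 1}`;
(3) for arbitrary real numbers `a_{i,n}` with `|a_{i,m} - a_{i,n}| ≥ δ > 0`, `m ≠ n`, and almost all `x`
`c n = (⌊a_{i,n} x_i⌋)_i` has it, along `{0, ..., N - 1}`;
(4) for different `k_n`, all `ξ_i ≠ 0` and almost all `x` with all `x_i > 1` `c n = (⌊ξ_i x_i ^ k_n⌋)_i` has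
it, along `{0, ..., N - 1}`;
(5) for matrices `s_0, ..., s_m` in `SL_r(ℤ)`, `r ≥ 2`, which generate `SL_r(ℤ/q)` for all `q` prime to some
number, and every `v ≠ 0` the random orbit `c n = s_{w (n-1)} ... s_{w 0} v` has it for almost all sequences
of letters `w`, along `{0, ..., N - 1}`;
(6) for generalised polynomials with different positive nonintegral leading exponents and positive leading
coefficients `c n = (⌊∑_{t ∈ F_i} a_{i,t} n ^ t⌋)_i` has it, along the integers and along the primes of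
`(N, 2 N]`;
(7) the vectors whose coordinates are primes `≤ N` have it. -/
def Robust [DecidableEq ι] (Q : ∀ Ω : Type, (ℕ → Finset Ω) → (Ω → ι → ℤ) → Prop) : Prop :=
  (∀ (Ω : Type) (S : ℕ → Finset Ω) (c : Ω → ι → ℤ), Dominated S c → Q Ω S c) ∧
  (∀ (a b : ι → ℝ) (f : ι → ℕ → ℝ → ℝ), (∀ i, a i < b i) → (∀ i, Koksma (a i) (b i) (f i)) →
    ∀ᵐ x : ι → ℝ, (∀ i, x i ∈ Set.Icc (a i) (b i)) → Q ℕ Finset.range (fun n i => ⌊f i n (x i)⌋)) ∧
  (∀ (a : ι → ℕ → ℝ) (δ : ℝ), 0 < δ → (∀ i m n, m ≠ n → δ ≤ |a i m - a i n|) →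
    ∀ᵐ x : ι → ℝ, Q ℕ Finset.range (fun n i => ⌊a i n * x i⌋)) ∧
  (∀ (k : ℕ → ℕ) (ξ : ι → ℝ), Function.Injective k → (∀ i, ξ i ≠ 0) →
    ∀ᵐ x : ι → ℝ, (∀ i, 1 < x i) → Q ℕ Finset.range (fun n i => ⌊ξ i * x i ^ k n⌋)) ∧
  (2 ≤ Fintype.card ι → ∀ (W : Walk ι) (v : ι → ℤ), v ≠ 0 →
    ∀ᵐ w ∂(words W.m), Q ℕ Finset.range (orb W v w)) ∧
  (∀ (F : ι → Finset ℝ) (a : ι → ℝ → ℝ) (e : ι → ℝ),
    (∀ i, e i ∈ F i ∧ (∀ t ∈ F i, t ≤ e i) ∧ 0 < e i ∧ (∀ m : ℕ, e i ≠ m) ∧ 0 < a i (e i)) →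
    Function.Injective e →
    Q ℕ (fun N => Finset.Ioc N (2 * N)) (fun n i => ⌊∑ t ∈ F i, a i t * (n : ℝ) ^ t⌋) ∧
    Q ℕ (fun N => (Finset.Ioc N (2 * N)).filter Nat.Prime)
      (fun n i => ⌊∑ t ∈ F i, a i t * (n : ℝ) ^ t⌋)) ∧
  Q (ι → ℤ) (primeBox ι) id

theorem robust_of [DecidableEq ι] [Nonempty ι]
    (Q : ∀ Ω : Type, (ℕ → Finset Ω) → (Ω → ι → ℤ) → Prop)
    (h : ∀ (X : Type) (_ : MeasurableSpace X) (ν : Measure X) (P : X → Prop) (Ω : Type)
      (S : ℕ → Finset Ω) (c : X → Ω → ι → ℤ),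
      (∀ B : Set (ι → ℤ), StrongNull B → ∀ᵐ x ∂ν, P x → Rare S (c x) B) →
      ∀ᵐ x ∂ν, P x → Q Ω S (c x)) : Robust Q := by
  have hone : ∀ (Ω : Type) (S : ℕ → Finset Ω) (c : Ω → ι → ℤ),
      (∀ B : Set (ι → ℤ), StrongNull B → Rare S c B) → Q Ω S c := by
    intro Ω S c hc
    have h1 := h Unit inferInstance (Measure.dirac ()) (fun _ => True) Ω S (fun _ => c)
      (fun B hB => Eventually.of_forall fun _ _ => hc B hB)
    obtain ⟨x, hx⟩ := h1.exists
    exact hx trivial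
  have hdom : ∀ (Ω : Type) (S : ℕ → Finset Ω) (c : Ω → ι → ℤ), Dominated S c → Q Ω S c :=
    fun Ω S c hc => hone Ω S c fun B hB => rare_of_dominated hc hB
  refine ⟨hdom, fun a b f hab hf => ?_, fun a δ hδ ha => ?_, fun k ξ hk hξ => ?_,
    fun h2 W v hv => ?_, fun F a e he hinj => ?_, hdom _ _ _ dominated_primes⟩
  · refine h (ι → ℝ) inferInstance volume (fun x => ∀ i, x i ∈ Set.Icc (a i) (b i)) ℕ Finset.range
      (fun x n i => ⌊f i n (x i)⌋) fun B hB => ?_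
    filter_upwards [(Pool.Agent.N24.KM.main _ B hB.pro).1 a b f hab hf] with x hx hP
    exact Pool.Agent.N918.EQ.rareIn_of_rarely (hx hP)
  · have h1 := h (ι → ℝ) inferInstance volume (fun _ => True) ℕ Finset.range
      (fun x n i => ⌊a i n * x i⌋) fun B hB => by
        filter_upwards [(Pool.Agent.N24.KM.main _ B hB.pro).2.1 a δ hδ ha] with x hx _
        exact Pool.Agent.N918.EQ.rareIn_of_rarely hx
    filter_upwards [h1] with x hx
    exact hx trivial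
  · refine h (ι → ℝ) inferInstance volume (fun x => ∀ i, 1 < x i) ℕ Finset.range
      (fun x n i => ⌊ξ i * x i ^ k n⌋) fun B hB => ?_
    filter_upwards [(Pool.Agent.N24.KM.main _ B hB.pro).2.2 k ξ hk hξ] with x hx hP
    exact Pool.Agent.N918.EQ.rareIn_of_rarely (hx hP)
  · have h1 := h (ℕ → Fin (W.m + 1)) inferInstance (words W.m) (fun _ => True) ℕ Finset.range
      (fun w => orb W v w) fun B hB => by
        have h3 : ∀ᵐ w ∂(words W.m), Rarely (orb W v w) B :=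
          Pool.Agent.N24.RW.t_MAIN Pool.Agent.N24.RW.t_ORB Pool.Agent.N24.RW.t_ERG ι h2 W v hv B
            hB.pro
        filter_upwards [h3] with w hw _
        exact Pool.Agent.N918.EQ.rareIn_of_rarely hw
    filter_upwards [h1] with w hw
    exact hw trivial
  · obtain ⟨⟨κ, hκ, h1⟩, ⟨κ', hκ', h2⟩⟩ := Pool.Agent.N666.TM.fl_well he hinj
    exact ⟨hone _ _ _ fun B hB => Pool.Agent.N918.EQ.rareIn_of_well hκ h1 hB.pro,
      hone _ _ _ fun B hB => Pool.Agent.N918.EQ.rareIn_of_well hκ' h2 hB.pro⟩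

/-- properties given by countably many strongly null sets are robust -/
theorem robust_countable [DecidableEq ι] [Nonempty ι] {I : Type} [Countable I]
    (B : I → Set (ι → ℤ)) (hB : ∀ i, StrongNull (B i))
    (Q : ∀ Ω : Type, (ℕ → Finset Ω) → (Ω → ι → ℤ) → Prop)
    (hQ : ∀ (Ω : Type) (S : ℕ → Finset Ω) (c : Ω → ι → ℤ), (∀ i, Rare S c (B i)) → Q Ω S c) :
    Robust Q := by
  refine robust_of Q ?_
  intro X _ ν P Ω S c hR
  have h4 : ∀ᵐ x ∂ν, ∀ i, P x → Rare S (c x) (B i) := by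
    rw [ae_all_iff]
    exact fun i => hR _ (hB i)
  filter_upwards [h4] with x hx hP
  exact hQ Ω S (c x) fun i => hx i hP

omit [Fintype ι] in
theorem Rare.mono {Ω : Type} {S : ℕ → Finset Ω} {c : Ω → ι → ℤ} {B B' : Set (ι → ℤ)}
    (h : B ⊆ B') (hB : Rare S c B') : Rare S c B := by
  intro ε hε
  obtain ⟨N₀, h1⟩ := hB ε hε
  refine ⟨N₀, fun N hN => le_trans ?_ (h1 N hN)⟩
  refine Nat.cast_le.2 (Set.ncard_le_ncard ?_ ((S N).finite_toSet.subset fun n hn => hn.1))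
  rintro n ⟨h5, h6⟩
  exact ⟨h5, h h6⟩

/-- equidistributed sequences are dominated -/
theorem dominated_of_equi {S : ℕ → Finset ℕ} {c : ℕ → ι → ℤ}
    (h : Pool.Agent.N918.EQ.Equi S c) : Dominated S c := by
  obtain ⟨M, hM, h⟩ := h
  refine ⟨1, 0, M, hM, fun q hq hqM a ε hε => ?_⟩
  obtain ⟨N₀, h1⟩ := h q (Nat.pos_of_ne_zero hq.ne_zero) hqM a ε hε
  refine ⟨N₀, fun N hN => ?_⟩
  have h2 := h1 N hN
  simpa using h2

end

end Pool.Agent.Run7.h316.EQ
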