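import Pool.Agent.Run7.h316.EQ.Pro
import Pool.Agent.N89.GS.Fin

/-!
# The exceptional sets of the project GS of helper89 are strongly null
-/

set_option autoImplicit false

namespace Pool.Agent.Run7.h316.EQ.GS

open MvPolynomial NumberField Pool.Agent.H901R3.MS Pool.Agent.W659 Pool.Agent.W659.SA
  Pool.Agent.N89.GS Filter Topology
open Pool.Agent.Run7.h316.EQ (Classes StrongNull strong_of_classes)

/-- the statement for fixed `k₀` (compare `Pool.Agent.N89.GS.SieveGS`) -/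
def ClsGS (K : Type) [Field K] [NumberField K] {r s m q : ℕ} (κ : ℕ) (a b : Fin r → ℤ)
    (G : Fin q → Pol (𝓞 K) r s m) (σ : K →+* ℂ) (k₀ : ℕ) (δ : ℝ) : Prop :=
  ∀ (Φ : Fin κ → Pol (𝓞 K) r s m) (ι : Fin κ → Type) [∀ j, Fintype (ι j)]
    (Λ : (j : Fin κ) → ι j → Pol (𝓞 K) r s m) (d : Fin κ → Fin r → ℕ) (e : Fin κ → ℕ),
    (∀ j, MHomog (Φ j) (d j)) → (∀ j, THomog (Φ j) (e j)) → (∀ j x, MHomog (Λ j x) (d j)) →
    (∀ j x, THomog (Λ j x) (e j)) → (∀ j, SepFib (toC σ) a b G (Λ j) k₀) →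
  ∀ (L : Type) [Field L] [NumberField L] [Algebra K L],
    (Function.Surjective (algebraMap K L) ∨ ∀ j, SepTwo (toC σ) a b G (Λ j) k₀) →
  ∀ (Γ : Subgroup Lˣ), Γ.FG → ∀ (N : ℕ) (ω : Module.Basis (Fin N) ℤ (𝓞 K)),
    Classes L δ (BadAll ω a b Γ G Φ Λ)

theorem clsGS (hBON : S_BON) (hLIN : S_LIN) (hLIN1 : S_LIN1) (hFIB : S_FIB) (hTSF : S_TSF)
    (hTSW : S_TSW) (K : Type) [Field K] [NumberField K] (r s m q κ : ℕ) (hκ : 1 ≤ κ)
    (a b : Fin r → ℤ) (hab : ∀ i, a i * b i = 0 ∧ (a i ≠ 0 ∨ b i ≠ 0))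
    (G : Fin q → Pol (𝓞 K) r s m) (dG : Fin q → Fin r → ℕ) (fG : Fin q → ℕ)
    (hdG : ∀ e, MHomog (G e) (dG e)) (hfG : ∀ e, THomog (G e) (fG e)) (σ : K →+* ℂ)
    (hdim : DimLE σ a b G κ) :
    ∃ (k₀ : ℕ) (δ : ℝ), 0 < δ ∧ δ < 1 ∧ ClsGS K κ a b G σ k₀ δ := by
  classical
  obtain ⟨D, p₁, hfib⟩ := hFIB K r s m q κ a b G fG hfG σ hdim
  obtain ⟨k₀, δ, hδ0, hδ1, hloc⟩ := localD hBON hLIN hLIN1 D
  refine ⟨k₀, δ, hδ0, hδ1, ?_⟩
  intro Φ ι _ Λ d e hdΦ heΦ hdΛ heΛ hsf L _ _ _ hsw Γ hΓ N ω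
  obtain ⟨p₀, R, hcl⟩ := t_classesT L r s a b hab Γ hΓ
  choose p₂ hp₂ using fun j => hTSF K r s m q a b G (ι j) (Λ j) k₀ σ (hsf j)
  have h3 : ∃ p₃ : ℕ, Function.Surjective (algebraMap K L) ∨ ∀ j, ∀ p : ℕ, p.Prime → p₃ ≤ p →
      ∀ (k : Type) [Field k] [CharP k p] (φ : 𝓞 K →+* k), SepTwo φ a b G (Λ j) k₀ := by
    rcases hsw with h | h
    · exact ⟨0, Or.inl h⟩
    · choose p₃ hp₃ using fun j => hTSW K r s m q a b G (ι j) (Λ j) k₀ σ (h j)
      refine ⟨∑ j, p₃ j, Or.inr fun j p hp hpp k _ _ φ => hp₃ j p hp ?_ k φ⟩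
      exact (Finset.single_le_sum (f := p₃) (fun _ _ => Nat.zero_le _) (Finset.mem_univ j)).trans hpp
  obtain ⟨p₃, hp₃⟩ := h3
  refine ⟨p₀ + p₁ + ∑ j, p₂ j + p₃, R, ?_⟩
  intro T M hT
  obtain ⟨hM, hT⟩ := hT
  have hTp : ∀ p ∈ T, p.Prime := fun p hp => (hT p hp).1
  obtain ⟨Q, _, hQ, cls, hcls⟩ := hcl M hM
  -- the local data
  have key : ∀ p : ℕ, p ∈ T → ∃ G0 : Q → Set ((Σ j, ι j) × Fin N → ZMod p),
      (∀ x, (((G0 x).ncard : ℕ) : ℝ) ≤ (1 - δ) * (p : ℝ) ^ Fintype.card ((Σ j, ι j) × Fin N)) ∧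
      ∀ (V : Fin r → Fin 3 → L) (u : Fin s → Lˣ) (T : Fin m → L) (c : (Σ j, ι j) × Fin N → ℤ),
        (∀ i, FD.OnE (a i) (b i) (V i)) → (∀ l, u l ∈ Γ) →
        OnF (toL K L) G V (fun l => ((u l : Lˣ) : L)) T →
        (∀ j, vl (toL K L) (Φ j) V (fun l => ((u l : Lˣ) : L)) T +
          ∑ x, toL K L (∑ i, c (⟨j, x⟩, i) • ω i) *
            vl (toL K L) (Λ j x) V (fun l => ((u l : Lˣ) : L)) T = 0) →
        (fun s => (c s : ZMod p)) ∈ G0 (cls V u) := by
    intro p hp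
    obtain ⟨hpp, hp0, h12, ⟨k, _, _, hcard, φ, hφ⟩, hL1, hL2⟩ := hT p hp
    haveI : Fact p.Prime := ⟨hpp⟩
    haveI : CharP k p := charP_of_card hpp hcard
    obtain ⟨F, _, _, _, φF, hφF, hcomp, hcF, hcFk⟩ := exists_F hpp hcard
      (φ.comp (algebraMap (𝓞 K) (𝓞 L)))
    haveI : CharP F p := charP_of_card hpp hcF
    obtain ⟨V', u', hVu⟩ := hcls p hpp (by omega) h12 hL1 hL2 k hcard φ hφ
    have hG0 : ∀ x : Q, ∃ G0 : Set ((Σ j, ι j) × Fin N → ZMod p),
        (((G0).ncard : ℕ) : ℝ) ≤ (1 - δ) * (p : ℝ) ^ Fintype.card ((Σ j, ι j) × Fin N) ∧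
        (OnG a b (V' x) (u' x) → ∀ c : (Σ j, ι j) × Fin N → ℤ,
          (fun i => φF (∑ j, c (i, j) • ω j)) ∈ BadAt φF G Φ Λ (V' x) (u' x) →
          (fun s => (c s : ZMod p)) ∈ G0) := by
      intro x
      by_cases hx : OnG a b (V' x) (u' x)
      · have h5 := hloc κ hκ r s m q a b F k hcFk (𝓞 K) φF G dG fG hdG hfG Φ ι Λ d e hdΦ heΦ hdΛ
          heΛ (fun V u hV => hfib p hpp (by omega) k ((algebraMap F k).comp φF) V u hV)
          (fun V u hV => hfib p hpp (by omega) F φF V u hV)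
          (fun j => hp₂ j p hpp (by
            have := Finset.single_le_sum (f := p₂) (fun _ _ => Nat.zero_le _) (Finset.mem_univ j)
            omega) k ((algebraMap F k).comp φF)) (by
            rcases hp₃ with h | h
            · left
              apply le_antisymm
              · apply Fintype.card_le_of_surjective (algebraMap F k)
                intro y
                obtain ⟨x', hx'⟩ := hφ y
                obtain ⟨x'', rfl⟩ := surj_ringOfIntegers h x'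
                refine ⟨φF x'', ?_⟩
                rw [← hx']
                exact congrArg (fun f : 𝓞 K →+* k => f x'') hcomp
              · exact Fintype.card_le_of_injective _ (algebraMap F k).injective
            · exact Or.inr fun j => h j p hpp (by omega) k ((algebraMap F k).comp φF))
          (V' x) (u' x) hx
        obtain ⟨G0, hG1, hG2⟩ := Pool.Agent.N89.CI.preI K (Σ j, ι j) N ω p F hcF φF hφF
          (BadAt φF G Φ Λ (V' x) (u' x)) (1 - δ) h5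
        exact ⟨G0, hG1, fun _ => hG2⟩
      · refine ⟨∅, ?_, fun h => absurd h hx⟩
        rw [Set.ncard_empty, Nat.cast_zero]
        have : 0 ≤ 1 - δ := by linarith
        positivity
    choose G0 hG1 hG2 using hG0
    refine ⟨G0, hG1, ?_⟩
    intro V u T c hV hu hTF hc
    obtain ⟨hO, v, z, hv, hz, hval⟩ := hVu V u hV hu
    exact hG2 _ hO c (reduce φ φF hcomp G dG fG hdG hfG Φ Λ d e hdΦ heΦ hdΛ heΛ v z V _ _ _ hval T
      hTF (fun i => ∑ j, c (i, j) • ω j) hc)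
  choose G0 hG1 hG2 using key
  refine ⟨Q, inferInstance, fun x p => {c | ∃ hp : p ∈ T, c ∈ G0 p hp x}, hQ, ?_, ?_⟩
  · intro x p hp
    have h1 : {c | ∃ hp : p ∈ T, c ∈ G0 p hp x} = G0 p hp x := by
      ext c
      exact ⟨fun ⟨_, h⟩ => h, fun h => ⟨hp, h⟩⟩
    have h2 := hG1 p hp x
    rw [← h1] at h2
    exact h2
  · rintro c ⟨V, u, T₀, hV, hu, hTF, hw⟩
    exact ⟨cls V u, fun p hp => ⟨hp, hG2 p hp V u T₀ c hV hu hTF hw⟩⟩

/-- the index set of the countable family of fields and groups -/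
def Ix (K : Type) [Field K] : Type :=
  Σ θ : AlgebraicClosure K, Finset (IntermediateField.adjoin K {θ})ˣ

instance (K : Type) [Field K] [NumberField K] : Countable (Ix K) := by
  unfold Ix
  infer_instance

/-- all the exceptional sets are contained in a countable family -/
theorem badAll_cover {K L : Type} [Field K] [NumberField K] [Field L] [NumberField L] [Algebra K L]
    (Γ : Subgroup Lˣ) (hΓ : Γ.FG) :
    ∃ (i : Ix K) (g : L →ₐ[K] IntermediateField.adjoin K {i.1}), Function.Surjective g ∧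
      ∀ x ∈ Γ, Units.map (g : L →* IntermediateField.adjoin K {i.1}) x ∈
        Subgroup.closure (i.2 : Set (IntermediateField.adjoin K {i.1})ˣ) := by
  classical
  have hfd : FiniteDimensional K L := inferInstance
  obtain ⟨α, hα⟩ := Field.exists_primitive_element K L
  let f : L →ₐ[K] AlgebraicClosure K := IsAlgClosed.lift
  have hmem : ∀ x, f x ∈ IntermediateField.adjoin K {f α} := by
    intro x
    have h1 : x ∈ IntermediateField.adjoin K {α} := by rw [hα]; exact IntermediateField.mem_top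
    have h2 : (IntermediateField.adjoin K {α}).map f = IntermediateField.adjoin K {f α} := by
      rw [IntermediateField.adjoin_map, Set.image_singleton]
    rw [← h2]
    exact ⟨x, h1, rfl⟩
  let g : L →ₐ[K] IntermediateField.adjoin K {f α} :=
    f.codRestrict (IntermediateField.adjoin K {f α}).toSubalgebra hmem
  have hgs : Function.Surjective g := by
    rintro ⟨y, hy⟩
    have h1 : IntermediateField.adjoin K {f α} ≤ f.fieldRange := by
      rw [IntermediateField.adjoin_simple_le_iff]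
      exact ⟨α, rfl⟩
    obtain ⟨x, hx⟩ := h1 hy
    exact ⟨x, Subtype.ext hx⟩
  obtain ⟨S, hS⟩ := hΓ
  refine ⟨⟨f α, S.image (Units.map (g : L →* IntermediateField.adjoin K {f α}))⟩, g, hgs, ?_⟩
  intro x hx
  rw [← hS] at hx
  have h2 : Subgroup.map (Units.map (g : L →* IntermediateField.adjoin K {f α}))
      (Subgroup.closure (S : Set Lˣ)) =
      Subgroup.closure ((S.image (Units.map (g : L →* IntermediateField.adjoin K {f α})) :
        Finset (IntermediateField.adjoin K {f α})ˣ) :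
        Set (IntermediateField.adjoin K {f α})ˣ) := by
    rw [MonoidHom.map_closure, Finset.coe_image]
  rw [← h2]
  exact ⟨x, hx, rfl⟩

/-- the theorem for given fields and groups, with all the statements of the project GS -/
theorem strongGS (K : Type) [Field K] [NumberField K]
    (r s m q κ : ℕ) (hκ : 1 ≤ κ) (a b : Fin r → ℤ)
    (hab : ∀ i, a i * b i = 0 ∧ (a i ≠ 0 ∨ b i ≠ 0))
    (G : Fin q → Pol (𝓞 K) r s m) (dG : Fin q → Fin r → ℕ) (fG : Fin q → ℕ)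
    (hdG : ∀ l, MHomog (G l) (dG l)) (hfG : ∀ l, THomog (G l) (fG l)) (σ : K →+* ℂ)
    (hdim : DimLE σ a b G κ) :
    ∃ (k₀ : ℕ) (δ : ℝ), 0 < δ ∧ δ < 1 ∧ ClsGS K κ a b G σ k₀ δ ∧
      ∀ (ι : Type) (Λ : ι → Pol (𝓞 K) r s m) (d : Fin r → ℕ) (e : ℕ) (x₀ : Fin s → ℕ),
        k₀ ≤ e + 1 →
        (∀ (μ : Fin r → Fin 3 → ℕ) (α : Fin m → ℕ), (∀ i, ∑ j, μ i j = d i) → ∑ i, α i = e →
          ∃ y, Λ y = mon μ x₀ α) →
        SepFib (toC σ) a b G Λ k₀ ∧
        ((∀ i, 1 ≤ d i) → (∀ (μ : Fin r → Fin 3 → ℕ) (α : Fin m → ℕ) (l : Fin s),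
          (∀ i, ∑ j, μ i j = d i) → ∑ i, α i = e →
            ∃ y, Λ y = mon μ (Function.update x₀ l (x₀ l + 1)) α) →
              SepTwo (toC σ) a b G Λ k₀) := by
  obtain ⟨k₀, δ, hδ0, hδ1, hS⟩ := clsGS Pool.Agent.N637.GS.BON.main Pool.Agent.N712.GS.mainLIN
    Pool.Agent.N712.GS.mainLIN1 t_FIB Pool.Agent.N457.GS.TSF.main Pool.Agent.N169.GS.TSW.main
    K r s m q κ hκ a b hab G dG fG hdG hfG σ hdim
  exact ⟨k₀, δ, hδ0, hδ1, hS, fun ι Λ d e x₀ he h =>
    Pool.Agent.N813.GS.main (𝓞 K) ℂ (toC σ) r s m q a b G ι Λ k₀ d e x₀ he h⟩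

end Pool.Agent.Run7.h316.EQ.GS
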