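import Pool.Agent.Run7.h316.EQ.Pro
import Pool.Agent.N89.BD.Fin

/-!
# The exceptional sets of the project BD of helper89 are strongly null
-/

set_option autoImplicit false

namespace Pool.Agent.Run7.h316.EQ

open MvPolynomial NumberField Pool.Agent.H901R3.MS Pool.Agent.W659 Pool.Agent.W659.SA
  Pool.Agent.N89.GS Pool.Agent.N89.BD WeierstrassCurve Filter Topology
open Pool.Agent.N24.RW (ProNull)

/-- the classes of the sieve, abstract form (compare `Pool.Agent.N89.BD.sieveE`) -/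
theorem classesE (K : Type) [Field K] [NumberField K] {r s : ℕ} (a b : Fin r → ℤ)
    (hab : ∀ i, a i * b i = 0 ∧ (a i ≠ 0 ∨ b i ≠ 0)) (Γ : Subgroup Kˣ) (hΓ : Γ.FG)
    (J : Type) [Fintype J] (N : ℕ) (ω : Module.Basis (Fin N) ℤ (𝓞 K)) (δ : ℝ)
    (hδ1 : δ < 1) (p₁ : ℕ)
    (BadP : (∀ i, Pt (a i : K) (b i : K)) → (Fin s → Kˣ) → Set (J × Fin N → ℤ))
    (hloc : ∀ p : ℕ, p.Prime → p₁ ≤ p → 12 ∣ p + 1 → ∀ (k : Type) [Field k] [Fintype k],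
      (Fintype.card k = p ∨ Fintype.card k = p ^ 2) → ∀ φ : 𝓞 K →+* k,
      Function.Surjective φ → ∀ w : Place K k,
      (∀ x : 𝓞 K, (x : K) ∈ w.A ∧ w.r (x : K) = φ x) →
      ∀ red : (∀ i, Pt (a i : K) (b i : K) → Pt (a i : k) (b i : k)),
      (∀ i, IsRed w (a i) (b i) (red i)) →
      ∃ Bl : (∀ i, Pt (a i : k) (b i : k)) → (Fin s → k) → Set (J → k),
        (∀ x y, (∀ l, y l ≠ 0) → (((Bl x y).ncard : ℕ) : ℝ) ≤
          (1 - δ) * (Fintype.card k : ℝ) ^ Fintype.card J) ∧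
        ∀ (P : ∀ i, Pt (a i : K) (b i : K)) (u : Fin s → Kˣ), (∀ l, u l ∈ Γ) →
          (∀ l, (u l : K) ∈ w.A ∧ w.r (u l : K) ≠ 0) → ∀ c ∈ BadP P u,
          (fun i => φ (∑ j, c (i, j) • ω j)) ∈
            Bl (fun i => red i (P i)) (fun l => w.r (u l : K))) :
    Classes K δ {c : J × Fin N → ℤ | ∃ P u, (∀ l, u l ∈ Γ) ∧ c ∈ BadP P u} := by
  classical
  obtain ⟨p₀, R, hcl⟩ := classesK K r s a b hab Γ hΓ
  refine ⟨p₀ + p₁ + 5 + ∑ i, (4 * a i ^ 3 + 27 * b i ^ 2).natAbs + 1, R, ?_⟩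
  intro T M hT
  obtain ⟨hM, hT⟩ := hT
  have hTp : ∀ p ∈ T, p.Prime := fun p hp => (hT p hp).1
  obtain ⟨Q, _, hQ, cls, rp, ru, hcls⟩ := hcl M hM
  have hdisc := disc_ne hab
  -- the local data
  have key : ∀ p : ℕ, p ∈ T → ∃ G0 : Q → Set (J × Fin N → ZMod p),
      (∀ x, (((G0 x).ncard : ℕ) : ℝ) ≤ (1 - δ) * (p : ℝ) ^ Fintype.card (J × Fin N)) ∧
      ∀ (P : ∀ i, Pt (a i : K) (b i : K)) (u : Fin s → Kˣ), (∀ l, u l ∈ Γ) →
        ∀ c ∈ BadP P u, (fun s => (c s : ZMod p)) ∈ G0 (cls P u) := by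
    intro p hp
    obtain ⟨hpp, hp0, h12, ⟨k, _, _, hcard, φ, hφ⟩, hL1, hL2⟩ := hT p hp
    haveI : Fact p.Prime := ⟨hpp⟩
    haveI : CharP k p := charP_of_card hpp hcard
    obtain ⟨w, hw⟩ := Pool.Agent.W496.FK.PLQ.main K k φ hφ
    have hdk : ∀ i, Disc (a i : k) (b i : k) := fun i => FD.disc_of (by
      intro h
      have h5 : ((2 : ℕ) : k) = 0 := by exact_mod_cast h
      rw [CharP.cast_eq_zero_iff k p] at h5
      have := Nat.le_of_dvd (by norm_num) h5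
      omega) (by
      intro h
      have h4 := (CharP.intCast_eq_zero_iff k p _).1 h
      have h5 := Nat.le_of_dvd (Int.natAbs_pos.2 (hdisc i)) (Int.natCast_dvd.1 h4)
      have h6 : (4 * a i ^ 3 + 27 * b i ^ 2).natAbs ≤
          ∑ i, (4 * a i ^ 3 + 27 * b i ^ 2).natAbs :=
        Finset.single_le_sum (f := fun i => (4 * a i ^ 3 + 27 * b i ^ 2).natAbs)
          (fun _ _ => Nat.zero_le _) (Finset.mem_univ i)
      omega)
    choose red hred using fun i => t_R6 t_R1 t_R2 t_R3 t_R4 t_R5 K k w (a i) (b i) (hdk i)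
    obtain ⟨Bl, hBl1, hBl2⟩ := hloc p hpp (by omega) h12 k hcard φ hφ w hw
      (fun i => red i) hred
    have hrk := hcls p hpp (by omega) h12 hL1 hL2 k hcard w (fun x => (hw x).1)
      (fun i => red i) hred
    have hG0 : ∀ x : Q, ∃ G0 : Set (J × Fin N → ZMod p),
        (((G0).ncard : ℕ) : ℝ) ≤ (1 - δ) * (p : ℝ) ^ Fintype.card (J × Fin N) ∧
        ((∀ l, w.r (ru x l : K) ≠ 0) → ∀ c : J × Fin N → ℤ,
          (fun i => φ (∑ j, c (i, j) • ω j)) ∈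
            Bl (fun i => red i (rp x i)) (fun l => w.r (ru x l : K)) →
          (fun s => (c s : ZMod p)) ∈ G0) := by
      intro x
      by_cases hx : ∀ l, w.r (ru x l : K) ≠ 0
      · obtain ⟨G0, hG1, hG2⟩ := Pool.Agent.N89.CI.preI K J N ω p k hcard φ hφ
          (Bl (fun i => red i (rp x i)) (fun l => w.r (ru x l : K))) (1 - δ) (hBl1 _ _ hx)
        exact ⟨G0, hG1, fun _ => hG2⟩
      · refine ⟨∅, ?_, fun h => absurd h hx⟩
        rw [Set.ncard_empty, Nat.cast_zero]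
        have : 0 ≤ 1 - δ := by linarith
        positivity
    choose G0 hG1 hG2 using hG0
    refine ⟨G0, hG1, ?_⟩
    intro P u hu c hc
    obtain ⟨h1, h2⟩ := hrk P u hu
    have h3 := hBl2 P u hu (fun l => ⟨(h2 l).1, (h2 l).2.1⟩) c hc
    have h4 : (fun i => red i (P i)) = fun i => red i (rp (cls P u) i) := funext h1
    have h5 : (fun l => w.r (u l : K)) = fun l => w.r (ru (cls P u) l : K) :=
      funext fun l => (h2 l).2.2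
    rw [h4, h5] at h3
    exact hG2 _ (fun l => by rw [← (h2 l).2.2]; exact (h2 l).2.1) c h3
  choose G0 hG1 hG2 using key
  refine ⟨Q, inferInstance, fun x p => {c | ∃ hp : p ∈ T, c ∈ G0 p hp x}, hQ, ?_, ?_⟩
  · intro x p hp
    have h1 : {c | ∃ hp : p ∈ T, c ∈ G0 p hp x} = G0 p hp x := by
      ext c
      exact ⟨fun ⟨_, h⟩ => h, fun h => ⟨hp, h⟩⟩
    have h2 := hG1 p hp x
    rw [← h1] at h2
    exact h2
  · rintro c ⟨P, u, hu, hc⟩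
    exact ⟨cls P u, fun p hp => ⟨hp, hG2 p hp P u hu c hc⟩⟩

/-- the statement for fixed `k₀`: the sets of the `c` for which `X_c` has an `S`-integral point of degree
at most `B` are pronull -/
def ProS (K : Type) [Field K] [NumberField K] {r s m q : ℕ} (κ : ℕ) (a b : Fin r → ℤ)
    (G : Fin q → Pol (𝓞 K) r s m) (σ : K →+* ℂ) (B k₀ : ℕ) : Prop :=
  ∀ h : ℕ, 1 ≤ h → (r + s + κ) * B ≤ (r + s) + h * B →
      ∀ (Φ : Fin h → Pol (𝓞 K) r s m) (ι : Fin h → Type) [∀ j, Fintype (ι j)]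
        (Λ : (j : Fin h) → ι j → Pol (𝓞 K) r s m) (d : Fin h → Fin r → ℕ) (e : Fin h → ℕ),
        (∀ j, MHomog (Φ j) (d j)) → (∀ j, THomog (Φ j) (e j)) → (∀ j x, MHomog (Λ j x) (d j)) →
        (∀ j x, THomog (Λ j x) (e j)) → (∀ j, SepAll (toC σ) a b G (Λ j) k₀) →
        ∀ S : ℕ, 1 ≤ S → ∀ (N : ℕ) (ω : Module.Basis (Fin N) ℤ (𝓞 K)),
          StrongNull (BadB ω a b B S G Φ Λ)

theorem proBD' (hTRC : S_TRC) (hFIB : S_FIB) (hCZ : S_CZ) (hLNO : S_LNO) (hBN2 : S_BN2)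
    (hTSA : S_TSA) (hGL : S_GL) (hSUF : S_SUF) (K : Type) [Field K] [NumberField K]
    (r s m q κ : ℕ) (a b : Fin r → ℤ) (hab : ∀ i, a i * b i = 0 ∧ (a i ≠ 0 ∨ b i ≠ 0))
    (G : Fin q → Pol (𝓞 K) r s m) (dG : Fin q → Fin r → ℕ) (fG : Fin q → ℕ)
    (hdG : ∀ e, MHomog (G e) (dG e)) (hfG : ∀ e, THomog (G e) (fG e)) (σ : K →+* ℂ)
    (hdim : DimLE σ a b G κ) (B : ℕ) (hB : 1 ≤ B) (hg : 1 ≤ r + s) :
    ∃ k₀ : ℕ, ProS K κ a b G σ B k₀ := by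
  obtain ⟨k₀, δ, hδ0, hδ1, hloc⟩ := locS_all hTRC hFIB hCZ hLNO hBN2 hTSA hGL K r s m q κ a b hab
    G dG fG hdG hfG σ hdim B hB hg
  refine ⟨k₀, ?_⟩
  intro h hh hyp Φ ι _ Λ d e hdΦ heΦ hdΛ heΛ hsep S hS N ω
  obtain ⟨p₁, hp₁⟩ := hloc h hh hyp Φ ι Λ d e hdΦ heΦ hdΛ heΛ hsep S hS N ω
  have h1 := strong_of_classes hδ0 hδ1 (classesE K a b hab (SUn K S) (hSUF K S hS) (Σ j, ι j) N ω δ
    hδ1 p₁ (BadP hGL ω a b B S G Φ Λ) hp₁)
  exact h1.mono (badB_sub hGL ω a b hab B S G dG hdG Φ Λ d hdΦ hdΛ)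

theorem proBD (K : Type) [Field K] [NumberField K]
    (r s m q κ : ℕ) (a b : Fin r → ℤ) (hab : ∀ i, a i * b i = 0 ∧ (a i ≠ 0 ∨ b i ≠ 0))
    (G : Fin q → Pol (𝓞 K) r s m) (dG : Fin q → Fin r → ℕ) (fG : Fin q → ℕ)
    (hdG : ∀ e, MHomog (G e) (dG e)) (hfG : ∀ e, THomog (G e) (fG e)) (σ : K →+* ℂ)
    (hdim : DimLE σ a b G κ) (B : ℕ) (hB : 1 ≤ B) (hg : 1 ≤ r + s) :
    ∃ k₀ : ℕ, ProS K κ a b G σ B k₀ ∧
      ∀ (ι : Type) (Λ : ι → Pol (𝓞 K) r s m) (d : Fin r → ℕ) (e : ℕ) (x₀ : Fin s → ℕ),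
        (∀ i, k₀ ≤ d i + 1) → k₀ ≤ e + 1 →
        (∀ (μ : Fin r → Fin 3 → ℕ) (x : Fin s → ℕ) (α : Fin m → ℕ), (∀ i, ∑ j, μ i j = d i) →
          (∀ l, x₀ l ≤ x l ∧ x l + 1 ≤ x₀ l + k₀) → ∑ i, α i = e → ∃ y, Λ y = mon μ x α) →
        SepAll (toC σ) a b G Λ k₀ := by
  obtain ⟨k₀, hM⟩ := proBD' (Pool.Agent.N34.BD.TRC.main Pool.Agent.N403.BD.main
      Pool.Agent.N721.BD.main) t_FIB
    Pool.Agent.N346.BD.CZ.main Pool.Agent.N614.BD.LNO.main Pool.Agent.N935.BD.BN2.main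
    Pool.Agent.N519.BD.TSA.main
    (Pool.Agent.N712.BD.main Pool.Agent.N455.BD.GL1.main) Pool.Agent.N403.BDSUF.main K r s m q κ
    a b hab G dG fG hdG hfG σ hdim B hB hg
  exact ⟨k₀, hM, fun ι Λ d e x₀ hd he h => Pool.Agent.N769.BD.main (𝓞 K) ℂ (toC σ) r s m q a b G
    ι Λ k₀ d e x₀ hd he h⟩

end Pool.Agent.Run7.h316.EQ
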