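import Pool.Agent.Run7.h316.EQ.Null

/-!
# Very null sets: sets which avoid a positive proportion of the classes modulo infinitely many primes
-/

set_option autoImplicit false

namespace Pool.Agent.Run7.h316.EQ

open Filter Topology

section

variable {ι : Type} [Fintype ι]

/-- the image modulo `q` -/
def im (q : ℕ) (B : Set (ι → ℤ)) : Set (ι → ZMod q) :=
  (fun (c : ι → ℤ) (i : ι) => (c i : ZMod q)) '' B

/-- `B` is very null: for all `D`, `η > 1` and `ε > 0` there is a squarefree number `q` prime to `D` with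
`q / φ(q) ≤ η` such that at most `ε q ^ n` of the `q ^ n` classes modulo `q` contain elements of `B`. -/
def VeryNull (B : Set (ι → ℤ)) : Prop :=
  ∀ D : ℕ, 0 < D → ∀ (η ε : ℝ), 1 < η → 0 < ε → ∃ q : ℕ, Squarefree q ∧ q.Coprime D ∧
    (q : ℝ) / q.totient ≤ η ∧ (((im q B).ncard : ℕ) : ℝ) ≤ ε * (q : ℝ) ^ Fintype.card ι

theorem VeryNull.strong {B : Set (ι → ℤ)} (h : VeryNull B) : StrongNull B := by
  intro D hD A ε hε
  obtain ⟨q, hq, hqD, h1, h2⟩ := h D hD 2 (ε / 2 ^ A) (by norm_num) (by positivity)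
  refine ⟨q, hq, hqD, ?_⟩
  have h3 : ((q : ℝ) / q.totient) ^ A ≤ 2 ^ A := pow_le_pow_left₀ (by positivity) h1 A
  calc (((im q B).ncard : ℕ) : ℝ) * ((q : ℝ) / q.totient) ^ A
      ≤ (ε / 2 ^ A * (q : ℝ) ^ Fintype.card ι) * 2 ^ A :=
        mul_le_mul h2 h3 (by positivity) (by positivity)
    _ = ε * (q : ℝ) ^ Fintype.card ι := by field_simp

theorem VeryNull.mono {B B' : Set (ι → ℤ)} (h : B ⊆ B') (hB : VeryNull B') : VeryNull B := by
  intro D hD η ε hη hε
  obtain ⟨q, hq, hqD, h1, h2⟩ := hB D hD η ε hη hε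
  have : NeZero q := ⟨hq.ne_zero⟩
  refine ⟨q, hq, hqD, h1, le_trans ?_ h2⟩
  exact Nat.cast_le.2 (Set.ncard_le_ncard (Set.image_mono h) (Set.toFinite _))

/-- the image modulo a product of coprime numbers -/
theorem im_mul_le {q q' : ℕ} (hq : q ≠ 0) (hq' : q' ≠ 0) (hc : q.Coprime q') (B : Set (ι → ℤ)) :
    (im (q * q') B).ncard ≤ (im q B).ncard * (im q' B).ncard := by
  have : NeZero q := ⟨hq⟩
  have : NeZero q' := ⟨hq'⟩
  have : NeZero (q * q') := ⟨mul_ne_zero hq hq'⟩
  rw [← Set.ncard_prod]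
  refine Set.ncard_le_ncard_of_injOn (fun x => (fun i => ZMod.castHom (dvd_mul_right q q') (ZMod q)
    (x i), fun i => ZMod.castHom (dvd_mul_left q' q) (ZMod q') (x i))) ?_ ?_ (Set.toFinite _)
  · rintro _ ⟨c, hcB, rfl⟩
    refine ⟨⟨c, hcB, ?_⟩, ⟨c, hcB, ?_⟩⟩ <;>
    · funext i
      simp
  · rintro _ ⟨c, -, rfl⟩ _ ⟨c', -, rfl⟩ h
    rw [Prod.mk.injEq] at h
    funext i
    have h1 := congrFun h.1 i
    have h2 := congrFun h.2 i
    simp only [map_intCast] at h1 h2
    rw [ZMod.intCast_eq_intCast_iff_dvd_sub] at h1 h2 ⊢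
    push_cast
    exact (Nat.isCoprime_iff_coprime.2 hc).mul_dvd h1 h2

theorem im_le_pow {q : ℕ} (hq : q ≠ 0) (B : Set (ι → ℤ)) :
    (im q B).ncard ≤ q ^ Fintype.card ι := by
  classical
  have : NeZero q := ⟨hq⟩
  refine (Set.ncard_le_ncard (Set.subset_univ _) (Set.toFinite _)).trans ?_
  rw [Set.ncard_univ, Nat.card_eq_fintype_card, Fintype.card_fun, ZMod.card]

theorem VeryNull.union {B B' : Set (ι → ℤ)} (hB : VeryNull B) (hB' : VeryNull B') :
    VeryNull (B ∪ B') := by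
  intro D hD η ε hη hε
  have hη' : 1 < Real.sqrt η := by
    rw [Real.lt_sqrt (by norm_num)]
    simpa using hη
  obtain ⟨q, hq, hqD, h1, h2⟩ := hB D hD (Real.sqrt η) (ε / 2) hη' (by positivity)
  obtain ⟨q', hq', hqD', h1', h2'⟩ := hB' (D * q) (Nat.mul_pos hD (Nat.pos_of_ne_zero hq.ne_zero))
    (Real.sqrt η) (ε / 2) hη' (by positivity)
  have hc : q.Coprime q' := (Nat.Coprime.coprime_dvd_right (dvd_mul_left q D) hqD').symm
  have : NeZero (q * q') := ⟨mul_ne_zero hq.ne_zero hq'.ne_zero⟩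
  refine ⟨q * q', (Nat.squarefree_mul hc).2 ⟨hq, hq'⟩, Nat.Coprime.mul_left hqD
    (Nat.Coprime.coprime_dvd_right (dvd_mul_right D q) hqD'), ?_, ?_⟩
  · rw [Nat.totient_mul hc, Nat.cast_mul, Nat.cast_mul, mul_div_mul_comm]
    calc (q : ℝ) / q.totient * ((q' : ℝ) / q'.totient) ≤ Real.sqrt η * Real.sqrt η :=
          mul_le_mul h1 h1' (by positivity) (by positivity)
      _ = η := Real.mul_self_sqrt (by linarith)
  · have e1 : im (q * q') (B ∪ B') = im (q * q') B ∪ im (q * q') B' := Set.image_union _ _ _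
    have h3 : (im (q * q') (B ∪ B')).ncard ≤ (im q B).ncard * q' ^ Fintype.card ι +
        q ^ Fintype.card ι * (im q' B').ncard := by
      rw [e1]
      refine (Set.ncard_union_le _ _).trans (Nat.add_le_add ?_ ?_)
      · exact (im_mul_le hq.ne_zero hq'.ne_zero hc B).trans
          (Nat.mul_le_mul_left _ (im_le_pow hq'.ne_zero B))
      · exact (im_mul_le hq.ne_zero hq'.ne_zero hc B').trans
          (Nat.mul_le_mul_right _ (im_le_pow hq.ne_zero B'))
    have h4 : (((im (q * q') (B ∪ B')).ncard : ℕ) : ℝ) ≤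
        ((im q B).ncard : ℝ) * (q' : ℝ) ^ Fintype.card ι +
          (q : ℝ) ^ Fintype.card ι * ((im q' B').ncard : ℝ) := by exact_mod_cast h3
    refine h4.trans ?_
    rw [Nat.cast_mul, mul_pow]
    have h5 := mul_le_mul_of_nonneg_right h2
      (by positivity : (0 : ℝ) ≤ (q' : ℝ) ^ Fintype.card ι)
    have h6 := mul_le_mul_of_nonneg_left h2'
      (by positivity : (0 : ℝ) ≤ (q : ℝ) ^ Fintype.card ι)
    nlinarith

theorem veryNull_empty : VeryNull (∅ : Set (ι → ℤ)) := by
  intro D hD η ε hη hε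
  refine ⟨1, squarefree_one, Nat.coprime_one_left D, by simpa using hη.le, ?_⟩
  simp only [im, Set.image_empty, Set.ncard_empty, Nat.cast_zero]
  positivity

theorem VeryNull.iUnion {J : Type} [Finite J] {B : J → Set (ι → ℤ)} (h : ∀ j, VeryNull (B j)) :
    VeryNull (⋃ j, B j) := by
  classical
  have := Fintype.ofFinite J
  have key : ∀ s : Finset J, VeryNull (⋃ i ∈ s, B i) := by
    intro s
    induction s using Finset.induction_on with
    | empty => simpa using veryNull_empty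
    | insert a s ha ih =>
      rw [Finset.set_biUnion_insert]
      exact (h a).union ih
  simpa using key Finset.univ

/-- sets which avoid a positive proportion of the classes modulo arbitrarily large primes are very null -/
theorem veryNull_of_tests {B : Set (ι → ℤ)} {C : ℕ} (hC : 0 < C)
    (h : ∀ N₀ : ℕ, ∃ P : ℕ, N₀ ≤ P ∧ P.Prime ∧ ∃ A : Set (ι → ZMod P),
      P ^ Fintype.card ι ≤ C * A.ncard ∧ ∀ c ∈ B, (fun i => (c i : ZMod P)) ∉ A) : VeryNull B := by
  have hC0 : (0 : ℝ) < C := by exact_mod_cast hC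
  have hC1 : (1 : ℝ) ≤ C := by exact_mod_cast hC
  set θ : ℝ := 1 - 1 / C with hθ
  have hθ0 : 0 ≤ θ := by
    have : 1 / (C : ℝ) ≤ 1 := by rw [div_le_one hC0]; exact hC1
    linarith
  have hθ1 : θ < 1 := by
    have : 0 < 1 / (C : ℝ) := by positivity
    linarith
  -- one prime
  have hone : ∀ (D : ℕ) (η : ℝ), 0 < D → 1 < η → ∃ P : ℕ, P.Prime ∧ P.Coprime D ∧
      (P : ℝ) / (P.totient : ℝ) ≤ η ∧
      (((im P B).ncard : ℕ) : ℝ) ≤ θ * (P : ℝ) ^ Fintype.card ι := by
    intro D η hD hη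
    obtain ⟨N₁, hN₁⟩ := exists_nat_gt (η / (η - 1))
    obtain ⟨P, hP, hPp, A, hA, hBA⟩ := h (D + N₁ + 2)
    have : NeZero P := ⟨hPp.ne_zero⟩
    refine ⟨P, hPp, ?_, ?_, ?_⟩
    · rw [hPp.coprime_iff_not_dvd]
      intro hd
      have := Nat.le_of_dvd hD hd
      omega
    · have hη1 : 0 < η - 1 := by linarith
      rw [Nat.totient_prime hPp, Nat.cast_sub hPp.one_lt.le, Nat.cast_one]
      have h1 : η / (η - 1) < P := by
        have : (N₁ : ℝ) ≤ P := by exact_mod_cast (by omega : N₁ ≤ P)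
        linarith
      rw [div_lt_iff₀ hη1] at h1
      have h2 : (1 : ℝ) < P := by exact_mod_cast hPp.one_lt
      rw [div_le_iff₀ (by linarith)]
      nlinarith
    · have h1 : im P B ⊆ Aᶜ := by
        rintro _ ⟨c, hc, rfl⟩
        exact hBA c hc
      have h2 : (im P B).ncard ≤ Aᶜ.ncard := Set.ncard_le_ncard h1 (Set.toFinite _)
      have h3 : A.ncard + Aᶜ.ncard = P ^ Fintype.card ι := by
        classical
        rw [Set.ncard_add_ncard_compl, Nat.card_eq_fintype_card, Fintype.card_fun, ZMod.card]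
      have h4 : ((P ^ Fintype.card ι : ℕ) : ℝ) ≤ C * (A.ncard : ℝ) := by exact_mod_cast hA
      have h5 : (A.ncard : ℝ) + (Aᶜ.ncard : ℝ) = (P : ℝ) ^ Fintype.card ι := by exact_mod_cast h3
      have h6 : (((im P B).ncard : ℕ) : ℝ) ≤ (Aᶜ.ncard : ℝ) := by exact_mod_cast h2
      have h7 : (P : ℝ) ^ Fintype.card ι / C ≤ (A.ncard : ℝ) := by
        rw [div_le_iff₀ hC0]
        push_cast at h4
        linarith
      have h8 : θ * (P : ℝ) ^ Fintype.card ι =
          (P : ℝ) ^ Fintype.card ι - (P : ℝ) ^ Fintype.card ι / C := by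
        rw [hθ]
        ring
      rw [h8]
      linarith
  -- many primes
  have hmany : ∀ t : ℕ, ∀ (D : ℕ) (η : ℝ), 0 < D → 1 < η → ∃ q : ℕ, Squarefree q ∧ q.Coprime D ∧
      (q : ℝ) / (q.totient : ℝ) ≤ η ∧
      (((im q B).ncard : ℕ) : ℝ) ≤ θ ^ t * (q : ℝ) ^ Fintype.card ι := by
    intro t
    induction t with
    | zero =>
      intro D η hD hη
      refine ⟨1, squarefree_one, Nat.coprime_one_left D, by simpa using hη.le, ?_⟩
      have h1 := im_le_pow (one_ne_zero) B
      rw [one_pow] at h1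
      rw [pow_zero, one_mul, Nat.cast_one, one_pow]
      exact_mod_cast h1
    | succ t ih =>
      intro D η hD hη
      have hη' : 1 < Real.sqrt η := by
        rw [Real.lt_sqrt (by norm_num)]
        simpa using hη
      obtain ⟨q, hq, hqD, h1, h2⟩ := ih D (Real.sqrt η) hD hη'
      obtain ⟨P, hP, hPD, h3, h4⟩ := hone (D * q) (Real.sqrt η)
        (Nat.mul_pos hD (Nat.pos_of_ne_zero hq.ne_zero)) hη'
      have hc : q.Coprime P := (Nat.Coprime.coprime_dvd_right (dvd_mul_left q D) hPD).symm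
      refine ⟨q * P, (Nat.squarefree_mul hc).2 ⟨hq, hP.squarefree⟩, Nat.Coprime.mul_left hqD
        (Nat.Coprime.coprime_dvd_right (dvd_mul_right D q) hPD), ?_, ?_⟩
      · rw [Nat.totient_mul hc, Nat.cast_mul, Nat.cast_mul, mul_div_mul_comm]
        calc (q : ℝ) / q.totient * ((P : ℝ) / P.totient) ≤ Real.sqrt η * Real.sqrt η :=
              mul_le_mul h1 h3 (by positivity) (by positivity)
          _ = η := Real.mul_self_sqrt (by linarith)
      · have h5 : (((im (q * P) B).ncard : ℕ) : ℝ) ≤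
            ((im q B).ncard : ℝ) * ((im P B).ncard : ℝ) := by
          exact_mod_cast im_mul_le hq.ne_zero hP.ne_zero hc B
        refine h5.trans ?_
        calc ((im q B).ncard : ℝ) * ((im P B).ncard : ℝ)
            ≤ (θ ^ t * (q : ℝ) ^ Fintype.card ι) * (θ * (P : ℝ) ^ Fintype.card ι) :=
              mul_le_mul h2 h4 (by positivity) (by positivity)
          _ = θ ^ (t + 1) * ((q * P : ℕ) : ℝ) ^ Fintype.card ι := by
              rw [Nat.cast_mul, mul_pow]
              ring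
  intro D hD η ε hη hε
  obtain ⟨t, ht⟩ := exists_pow_lt_of_lt_one hε hθ1
  obtain ⟨q, hq, hqD, h1, h2⟩ := hmany t D η hD hη
  refine ⟨q, hq, hqD, h1, h2.trans ?_⟩
  exact mul_le_mul_of_nonneg_right ht.le (by positivity)

end

end Pool.Agent.Run7.h316.EQ
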