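import Pool.Agent.Run7.h316.EQ.Null

/-!
# Strongly null sets from a sieve with general conditions on the primes
-/

set_option autoImplicit false

namespace Pool.Agent.Run7.h316.EQ

open Filter Topology

/-- conditions `Gd p₀ T M` on a set `T` of primes `≥ p₀` and a number `M` for which there are sets `T` with
many elements -/
structure Abundant (Gd : ℕ → Finset ℕ → ℕ → Prop) : Prop where
  one : ∀ p₀ T M, Gd p₀ T M → 1 ≤ M
  prime : ∀ p₀ T M, Gd p₀ T M → ∀ p ∈ T, p.Prime ∧ p₀ ≤ p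
  mono : ∀ p₀ p₁ T M, p₀ ≤ p₁ → Gd p₁ T M → Gd p₀ T M
  exi : ∀ (δ : ℝ), 0 < δ → δ < 1 → ∀ (p₀ R : ℕ) (ε : ℝ), 0 < ε →
    ∃ T M, Gd p₀ T M ∧ (M : ℝ) ^ R * (1 - δ) ^ T.card ≤ ε

/-- the classes of the sieve, with general conditions on the sets of primes -/
def ClassesG (Gd : ℕ → Finset ℕ → ℕ → Prop) (δ : ℝ) {ι : Type} [Fintype ι]
    (B : Set (ι → ℤ)) : Prop :=
  ∃ C p₀ R : ℕ, ∀ (T : Finset ℕ) (M : ℕ), Gd p₀ T M →
    ∃ (Q : Type) (_ : Fintype Q) (G : Q → (p : ℕ) → Set (ι → ZMod p)),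
      Fintype.card Q ≤ C * M ^ R ∧
      (∀ x, ∀ p ∈ T, (((G x p).ncard : ℕ) : ℝ) ≤ (1 - δ) * (p : ℝ) ^ Fintype.card ι) ∧
      ∀ c ∈ B, ∃ x, ∀ p ∈ T, (fun i => (c i : ZMod p)) ∈ G x p

theorem ClassesG.mono {Gd : ℕ → Finset ℕ → ℕ → Prop} {δ : ℝ} {ι : Type} [Fintype ι]
    {B B' : Set (ι → ℤ)} (hBB : B ⊆ B') (h : ClassesG Gd δ B') : ClassesG Gd δ B := by
  obtain ⟨C, p₀, R, h⟩ := h
  refine ⟨C, p₀, R, fun T M hT => ?_⟩
  obtain ⟨Q, iQ, G, h1, h2, h3⟩ := h T M hT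
  exact ⟨Q, iQ, G, h1, h2, fun c hc => h3 c (hBB hc)⟩

theorem ClassesG.iUnion {Gd : ℕ → Finset ℕ → ℕ → Prop} (hG : Abundant Gd) {δ : ℝ} {ι : Type}
    [Fintype ι] {J : Type} [Fintype J] (B : J → Set (ι → ℤ)) (h : ∀ j, ClassesG Gd δ (B j)) :
    ClassesG Gd δ (⋃ j, B j) := by
  classical
  choose C p₀ R h using h
  refine ⟨∑ j, C j, ∑ j, p₀ j, ∑ j, R j, fun T M hT => ?_⟩
  have hM := hG.one _ _ _ hT
  have h1 : ∀ j, Gd (p₀ j) T M := fun j => hG.mono _ _ T M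
    (Finset.single_le_sum (f := p₀) (fun _ _ => Nat.zero_le _) (Finset.mem_univ j)) hT
  choose Q iQ G hQ hG2 hB using fun j => h j T M (h1 j)
  refine ⟨Σ j, Q j, inferInstance, fun x p => G x.1 x.2 p, ?_, fun x p hp => hG2 x.1 x.2 p hp, ?_⟩
  · rw [Fintype.card_sigma, Finset.sum_mul]
    refine Finset.sum_le_sum fun j _ => (hQ j).trans ?_
    refine Nat.mul_le_mul_left _ (Nat.pow_le_pow_right hM ?_)
    exact Finset.single_le_sum (f := R) (fun _ _ => Nat.zero_le _) (Finset.mem_univ j)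
  · intro c hc
    obtain ⟨j, hj⟩ := Set.mem_iUnion.1 hc
    obtain ⟨x, hx⟩ := hB j c hj
    exact ⟨⟨j, x⟩, hx⟩

theorem strong_of_classesG {Gd : ℕ → Finset ℕ → ℕ → Prop} (hG : Abundant Gd) {δ : ℝ}
    (hδ0 : 0 < δ) (hδ1 : δ < 1) {ι : Type} [Fintype ι] {B : Set (ι → ℤ)}
    (h : ClassesG Gd δ B) : StrongNull B := by
  refine strong_of_data (θ := 1 - δ) (θ' := 1 - δ / 2) (by linarith) (by linarith) ?_
  intro D ε hε
  obtain ⟨C, p₀, R, h⟩ := h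
  obtain ⟨T, M, hT, hTε⟩ := hG.exi (δ / 2) (by linarith) (by linarith) (p₀ + D + 1) R
    (ε / (C + 1)) (by positivity)
  obtain ⟨Q, iQ, G, hQ, hG2, hB⟩ := h T M (hG.mono _ _ T M (by omega) hT)
  refine ⟨T, Q, iQ, G, fun p hp => ?_, ?_, hG2, hB⟩
  · obtain ⟨h1, h2⟩ := hG.prime _ _ _ hT p hp
    exact ⟨h1, by omega⟩
  · have h0 : (0 : ℝ) ≤ 1 - δ / 2 := by linarith
    have h1 : (Fintype.card Q : ℝ) ≤ C * (M : ℝ) ^ R := by exact_mod_cast hQ
    have h2 : (0 : ℝ) ≤ (M : ℝ) ^ R * (1 - δ / 2) ^ T.card := by positivity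
    have hC : (0 : ℝ) ≤ C := Nat.cast_nonneg C
    calc (Fintype.card Q : ℝ) * (1 - δ / 2) ^ T.card
        ≤ C * (M : ℝ) ^ R * (1 - δ / 2) ^ T.card :=
          mul_le_mul_of_nonneg_right h1 (by positivity)
      _ = C * ((M : ℝ) ^ R * (1 - δ / 2) ^ T.card) := by ring
      _ ≤ (C + 1) * ((M : ℝ) ^ R * (1 - δ / 2) ^ T.card) := by nlinarith
      _ ≤ (C + 1) * (ε / (C + 1)) := mul_le_mul_of_nonneg_left hTε (by positivity)
      _ = ε := by field_simp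

/-- the existence of good sets from the asymptotic inequality -/
theorem exi_of_asym {Gd : ℕ → Finset ℕ → ℕ → Prop} (δ : ℝ) (p₀ R : ℕ)
    (h : ∀ Bd : ℕ → Set (Unit × Fin 1 → ℤ),
      (∀ (T : Finset ℕ) (M : ℕ), Gd p₀ T M → ∀ H : ℕ, ∏ p ∈ T, p ≤ 2 * H + 1 →
        (((Bd H).ncard : ℕ) : ℝ) ≤ (2 * (2 * (H : ℝ) + 1)) ^ Fintype.card (Unit × Fin 1) *
          ((M : ℝ) ^ R * (1 - δ) ^ T.card)) →
      ∃ c : ℝ, 0 < c ∧ ∃ H₀ : ℕ, ∀ H : ℕ, H₀ ≤ H →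
        (((Bd H).ncard : ℕ) : ℝ) ≤ (2 * (H : ℝ) + 1) ^ (Fintype.card Unit * 1) *
          Real.exp (-c * (Real.log H / Real.log (Real.log H))))
    (ε : ℝ) (hε : 0 < ε) : ∃ (T : Finset ℕ) (M : ℕ), Gd p₀ T M ∧
      (M : ℝ) ^ R * (1 - δ) ^ T.card ≤ ε := by
  by_contra hcon
  push Not at hcon
  have h1 : ∀ n : ℕ, ∃ A : Set (Unit × Fin 1 → ℤ), A.ncard = n := by
    intro n
    obtain ⟨s, hs⟩ := Infinite.exists_subset_card_eq (Unit × Fin 1 → ℤ) n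
    exact ⟨s, by rw [Set.ncard_coe_finset, hs]⟩
  choose A hA using h1
  obtain ⟨c, hc, H₀, h⟩ := h (fun H => A ⌊2 * (2 * (H : ℝ) + 1) * ε⌋₊) (by
      intro T M hT H hH
      rw [hA]
      have h2 := hcon T M hT
      have h3 : ((⌊2 * (2 * (H : ℝ) + 1) * ε⌋₊ : ℕ) : ℝ) ≤ 2 * (2 * (H : ℝ) + 1) * ε :=
        Nat.floor_le (by positivity)
      refine h3.trans ?_
      simp only [Fintype.card_prod, Fintype.card_unit, Fintype.card_fin, mul_one, pow_one]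
      exact mul_le_mul_of_nonneg_left h2.le (by positivity))
  have hx : Tendsto (fun x : ℝ => x / Real.log x) atTop atTop := by
    have h1 : Tendsto (fun x : ℝ => Real.log x / x) atTop (𝓝[>] 0) := by
      refine tendsto_nhdsWithin_iff.2 ⟨Real.isLittleO_log_id_atTop.tendsto_div_nhds_zero, ?_⟩
      filter_upwards [eventually_gt_atTop 1] with x hx
      exact div_pos (Real.log_pos hx) (by linarith)
    have h2 := h1.inv_tendsto_nhdsGT_zero
    refine h2.congr fun x => ?_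
    simp [inv_div]
  have hy : Tendsto (fun H : ℕ => Real.log H / Real.log (Real.log H)) atTop atTop :=
    hx.comp (Real.tendsto_log_atTop.comp tendsto_natCast_atTop_atTop)
  have hz : Tendsto (fun H : ℕ => Real.exp (-c * (Real.log H / Real.log (Real.log H)))) atTop
      (𝓝 0) := by
    have h2 := Real.tendsto_exp_neg_atTop_nhds_zero.comp (hy.const_mul_atTop hc)
    refine h2.congr fun H => ?_
    simp [neg_mul]
  have hw : Tendsto (fun H : ℕ => (2 * (H : ℝ) + 1) * ε) atTop atTop := by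
    refine Tendsto.atTop_mul_const hε ?_
    exact tendsto_atTop_add_const_right _ _
      (tendsto_natCast_atTop_atTop.const_mul_atTop (by norm_num))
  obtain ⟨H, hH1, hH2, hH3⟩ := ((eventually_ge_atTop H₀).and
    ((hz.eventually_lt_const (show (0 : ℝ) < ε / 2 by positivity)).and
      (hw.eventually_ge_atTop 1))).exists
  have h2 := h H hH1
  rw [hA] at h2
  simp only [Fintype.card_unit, one_mul, pow_one] at h2
  have h3 : 2 * (2 * (H : ℝ) + 1) * ε < (⌊2 * (2 * (H : ℝ) + 1) * ε⌋₊ : ℝ) + 1 :=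
    Nat.lt_floor_add_one _
  have h4 : (2 * (H : ℝ) + 1) * Real.exp (-c * (Real.log H / Real.log (Real.log H))) ≤
      (2 * (H : ℝ) + 1) * (ε / 2) := mul_le_mul_of_nonneg_left hH2.le (by positivity)
  nlinarith

end Pool.Agent.Run7.h316.EQ
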