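import Pool.Agent.Run7.h316.EQ.Gen
import Pool.Agent.N89.HA.Fin

/-!
# The exceptional sets of the project HA of helper89 are strongly null

Hilbert's irreducibility theorem at all the points of a semiabelian variety.
-/

set_option autoImplicit false

namespace Pool.Agent.Run7.h316.EQ.HA

open MvPolynomial NumberField Pool.Agent.H901R3.MS Pool.Agent.W659 Pool.Agent.W659.SA
  Pool.Agent.N89.GS Pool.Agent.N89.BD Pool.Agent.N89.HX Pool.Agent.N89.HL Pool.Agent.N89.HA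
  WeierstrassCurve
open Pool.Agent.N89.HG hiding ev
open Pool.Agent.Run7.h316.EQ (StrongNull Abundant ClassesG exi_of_asym strong_of_classesG)

theorem abundantQ (K L : Type) [Field K] [NumberField K] [Field L] [NumberField L] [Algebra K L]
    (hcmp : Cmp K L) : Abundant (GoodQ (GoodKL K L)) where
  one p₀ T M h := h.1
  prime p₀ T M h p hp := ⟨(h.2 p hp).1, (h.2 p hp).2.1⟩
  mono p₀ p₁ T M hp h := ⟨h.1, fun p hpT => by
    obtain ⟨h1, h2, h3⟩ := h.2 p hpT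
    exact ⟨h1, hp.trans h2, h3⟩⟩
  exi δ hδ0 hδ1 p₀ R ε hε := exi_of_asym δ p₀ R (fun Bd hSv =>
    asymQ (GoodKL K L) (hom2 K L hcmp) Unit 1 δ hδ0 hδ1 p₀ R Bd hSv) ε hε

/-- the classes of the sieve -/
theorem classesKL (K L : Type) [Field K] [NumberField K] [Field L] [NumberField L] [Algebra K L]
    {r s : ℕ} (a b : Fin r → ℤ)
    (hab : ∀ i, a i * b i = 0 ∧ (a i ≠ 0 ∨ b i ≠ 0)) (Γ : Subgroup Lˣ) (hΓ : Γ.FG)
    (J : Type) [Fintype J] (N : ℕ) (ω : Module.Basis (Fin N) ℤ (𝓞 K)) (δ : ℝ)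
    (hδ1 : δ < 1) (p₁ : ℕ)
    (BadP : (∀ i, Pt (a i : L) (b i : L)) → (Fin s → Lˣ) → Set (J × Fin N → ℤ))
    (hloc : ∀ p : ℕ, p.Prime → p₁ ≤ p → 12 ∣ p + 1 → ∀ (k : Type) [Field k] [Fintype k],
      (Fintype.card k = p ∨ Fintype.card k = p ^ 2) → ∀ φ : 𝓞 L →+* k,
      Function.Surjective (φ.comp (algebraMap (𝓞 K) (𝓞 L))) → ∀ w : Place L k,
      (∀ x : 𝓞 L, (x : L) ∈ w.A ∧ w.r (x : L) = φ x) →
      ∀ red : (∀ i, Pt (a i : L) (b i : L) → Pt (a i : k) (b i : k)),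
      (∀ i, IsRed w (a i) (b i) (red i)) →
      LocL K L a b Γ J ω δ BadP k φ w red k (φ.comp (algebraMap (𝓞 K) (𝓞 L)))) :
    ClassesG (GoodQ (GoodKL K L)) δ {c : J × Fin N → ℤ | ∃ P u, (∀ l, u l ∈ Γ) ∧ c ∈ BadP P u} := by
  classical
  obtain ⟨p₀, R, hcl⟩ := classesK L r s a b hab Γ hΓ
  refine ⟨1, p₀ + p₁ + 5 + ∑ i, (4 * a i ^ 3 + 27 * b i ^ 2).natAbs + 1, R, ?_⟩
  intro T M hT
  obtain ⟨hM, hT⟩ := hT
  have hTp : ∀ p ∈ T, p.Prime := fun p hp => (hT p hp).1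
  obtain ⟨Q, _, hQ, cls, rp, ru, hcls⟩ := hcl M hM
  have hdisc : ∀ i, 4 * a i ^ 3 + 27 * b i ^ 2 ≠ 0 := by
    intro i h
    obtain ⟨h1, h2⟩ := hab i
    rcases mul_eq_zero.1 h1 with h3 | h3
    · rw [h3] at h h2
      have h4 : (b i) ^ 2 = 0 := by linarith
      rcases h2 with h2 | h2
      · exact h2 rfl
      · exact h2 (pow_eq_zero_iff two_ne_zero |>.1 h4)
    · rw [h3] at h h2
      have h4 : (a i) ^ 3 = 0 := by linarith
      rcases h2 with h2 | h2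
      · exact h2 (pow_eq_zero_iff three_ne_zero |>.1 h4)
      · exact h2 rfl
  -- the local data
  have key : ∀ p : ℕ, p ∈ T → ∃ G0 : Q → Set (J × Fin N → ZMod p),
      (∀ x, (((G0 x).ncard : ℕ) : ℝ) ≤ (1 - δ) * (p : ℝ) ^ Fintype.card (J × Fin N)) ∧
      ∀ (P : ∀ i, Pt (a i : L) (b i : L)) (u : Fin s → Lˣ), (∀ l, u l ∈ Γ) →
        ∀ c ∈ BadP P u, (fun s => (c s : ZMod p)) ∈ G0 (cls P u) := by
    intro p hp
    obtain ⟨hpp, hp0, h12, ⟨k, _, _, hcard, φ, hφ'⟩, hL1, hL2⟩ := hT p hp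
    have hφ : Function.Surjective φ := by
      intro y
      obtain ⟨x, hx⟩ := hφ' y
      exact ⟨_, hx⟩
    haveI : Fact p.Prime := ⟨hpp⟩
    haveI : CharP k p := charP_of_card hpp hcard
    obtain ⟨w, hw⟩ := Pool.Agent.W496.FK.PLQ.main L k φ hφ
    have hdk : ∀ i, Disc (a i : k) (b i : k) := fun i => FD.disc_of (by
      intro h
      have h5 : ((2 : ℕ) : k) = 0 := by exact_mod_cast h
      rw [CharP.cast_eq_zero_iff k p] at h5
      have := Nat.le_of_dvd (by norm_num) h5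
      omega) (by
      intro h
      have h4 := (CharP.intCast_eq_zero_iff k p _).1 h
      have h5 := Nat.le_of_dvd (Int.natAbs_pos.2 (hdisc i)) (Int.natCast_dvd.1 h4)
      have h6 : (4 * a i ^ 3 + 27 * b i ^ 2).natAbs ≤
          ∑ i, (4 * a i ^ 3 + 27 * b i ^ 2).natAbs :=
        Finset.single_le_sum (f := fun i => (4 * a i ^ 3 + 27 * b i ^ 2).natAbs)
          (fun _ _ => Nat.zero_le _) (Finset.mem_univ i)
      omega)
    choose red hred using fun i => t_R6 t_R1 t_R2 t_R3 t_R4 t_R5 L k w (a i) (b i) (hdk i)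
    obtain ⟨Bl, hBl1, hBl2⟩ := hloc p hpp (by omega) h12 k hcard φ hφ' w hw
      (fun i => red i) hred
    have hrk := hcls p hpp (by omega) h12 hL1 hL2 k hcard w (fun x => (hw x).1)
      (fun i => red i) hred
    have hG0 : ∀ x : Q, ∃ G0 : Set (J × Fin N → ZMod p),
        (((G0).ncard : ℕ) : ℝ) ≤ (1 - δ) * (p : ℝ) ^ Fintype.card (J × Fin N) ∧
        ((∀ l, w.r (ru x l : L) ≠ 0) → ∀ c : J × Fin N → ℤ,
          (fun i => (φ.comp (algebraMap (𝓞 K) (𝓞 L))) (∑ j, c (i, j) • ω j)) ∈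
            Bl (fun i => red i (rp x i)) (fun l => w.r (ru x l : L)) →
          (fun s => (c s : ZMod p)) ∈ G0) := by
      intro x
      by_cases hx : ∀ l, w.r (ru x l : L) ≠ 0
      · obtain ⟨G0, hG1, hG2⟩ := Pool.Agent.N89.CI.preI K J N ω p k hcard (φ.comp (algebraMap (𝓞 K) (𝓞 L))) hφ'
          (Bl (fun i => red i (rp x i)) (fun l => w.r (ru x l : L))) (1 - δ) (hBl1 _ _ hx)
        exact ⟨G0, hG1, fun _ => hG2⟩
      · refine ⟨∅, ?_, fun h => absurd h hx⟩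
        rw [Set.ncard_empty, Nat.cast_zero]
        have : 0 ≤ 1 - δ := by linarith
        positivity
    choose G0 hG1 hG2 using hG0
    refine ⟨G0, hG1, ?_⟩
    intro P u hu c hc
    obtain ⟨h1, h2⟩ := hrk P u hu
    have h3 := hBl2 P u hu (fun l => ⟨(h2 l).1, (h2 l).2.1⟩) c hc
    have h4 : (fun i => red i (P i)) = fun i => red i (rp (cls P u) i) := funext h1
    have h5 : (fun l => w.r (u l : L)) = fun l => w.r (ru (cls P u) l : L) :=
      funext fun l => (h2 l).2.2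
    rw [h4, h5] at h3
    exact hG2 _ (fun l => by rw [← (h2 l).2.2]; exact (h2 l).2.1) c h3
  choose G0 hG1 hG2 using key
  refine ⟨Q, inferInstance, fun x p => {c | ∃ hp : p ∈ T, c ∈ G0 p hp x}, by rwa [one_mul],
    ?_, ?_⟩
  · intro x p hp
    have h1 : {c | ∃ hp : p ∈ T, c ∈ G0 p hp x} = G0 p hp x := by
      ext c
      exact ⟨fun ⟨_, h⟩ => h, fun h => ⟨hp, h⟩⟩
    have h2 := hG1 p hp x
    rw [← h1] at h2
    exact h2
  · rintro c ⟨P, u, hu, hc⟩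
    exact ⟨cls P u, fun p hp => ⟨hp, hG2 p hp P u hu c hc⟩⟩

theorem strongHA (K L : Type) [Field K] [NumberField K] [Field L] [NumberField L] [Algebra K L]
    (hcmp : Cmp K L) (N : ℕ) (ω : Module.Basis (Fin N) ℤ (𝓞 K))
    (r s n e D : ℕ) (a b : Fin r → ℤ) (hab : ∀ i, a i * b i = 0 ∧ (a i ≠ 0 ∨ b i ≠ 0))
    (h : Fin (e + 1) → MvPolynomial (Fin (n + 1)) (𝓞 L)) (hh : ∀ i, (h i).IsHomogeneous D)
    (𝒢 : Subgroup (Equiv.Perm (Fin e))) [Fintype 𝒢] (R : RG h 𝒢)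
    (Di : MvPolynomial (Fin (e + 1)) ℤ) (hDi : IsDisc Di)
    (σ₁ : L →+* ℂ) (hC : CndG (toC σ₁) R Di) (σ₀ : K →+* ℂ) (Φ : Fin (n + 1) → Pol (𝓞 K) r s 0)
    (ι : Fin (n + 1) → Type) [∀ i, Fintype (ι i)] (Λ : (i : Fin (n + 1)) → ι i → Pol (𝓞 K) r s 0)
    (d : Fin r → ℕ) (hdΦ : ∀ i, MHomog (Φ i) d) (hdΛ : ∀ i x, MHomog (Λ i x) d)
    (hbp : ∀ i (V : Fin r → Fin 3 → ℂ) (u : Fin s → ℂ), OnB a b V u →
      ∃ x, vl (toC σ₀) (Λ i x) V u Fin.elim0 ≠ 0) (S : ℕ) (hS : 1 ≤ S) :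
    StrongNull (BadHA ω a b h 𝒢 Φ Λ S) := by
  obtain ⟨p₁, hp₁, hm₁, hloc⟩ := locL_ha_all Pool.Agent.N42.HG.TRG.main
    (Pool.Agent.N433.HG.main Pool.Agent.N136.HG.ONEG.main) Pool.Agent.N712.GS.mainLIN1
    Pool.Agent.N519.BD.TSA.main K L r s n e a b R Di hDi σ₁ hC
    σ₀ Φ ι Λ hbp (SUn L S) (S + 1)
  have hcp : 0 < Fintype.card 𝒢 := Fintype.card_pos
  have hδ : (0 : ℝ) < 1 / ((2 * Fintype.card 𝒢 : ℕ) : ℝ) := by
    have : (0 : ℝ) < ((2 * Fintype.card 𝒢 : ℕ) : ℝ) := by exact_mod_cast (by omega)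
    positivity
  have hδ1 : 1 / ((2 * Fintype.card 𝒢 : ℕ) : ℝ) < 1 := by
    have h1 : (1 : ℝ) < ((2 * Fintype.card 𝒢 : ℕ) : ℝ) := by exact_mod_cast (by omega)
    rw [div_lt_one (by linarith)]
    exact h1
  have hA := abundantQ K L hcmp
  refine strong_of_classesG hA hδ hδ1 (ClassesG.mono (badHA_sub Pool.Agent.N46.HG.FRBG.main
    Pool.Agent.N195.HG.SCL.main Pool.Agent.N768.HG.GRPG.main ω a b hab hh R Φ Λ d hdΦ hdΛ S p₁ hS
    hp₁ hm₁) (ClassesG.iUnion hA _ fun σ => ?_))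
  exact classesKL K L a b hab (SUn L S) (Pool.Agent.N403.BDSUF.main L S hS) (Σ i, ι i) N ω _ hδ1 p₁
    (BadHTA ω a b R Φ Λ p₁ σ.1) (hloc N ω σ.1 σ.2)

/-- the theorem, with hypotheses on the Galois groups of `h` (compare `Pool.Agent.N89.HA.finHA'`) -/
theorem strongHA' (K L : Type) [Field K] [NumberField K] [Field L] [NumberField L] [Algebra K L]
    (hcmp : Cmp K L) (N : ℕ) (ω : Module.Basis (Fin N) ℤ (𝓞 K))
    (r s n e D : ℕ) (a b : Fin r → ℤ) (hab : ∀ i, a i * b i = 0 ∧ (a i ≠ 0 ∨ b i ≠ 0))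
    (h : Fin (e + 1) → MvPolynomial (Fin (n + 1)) (𝓞 L)) (hh : ∀ i, (h i).IsHomogeneous D)
    (𝒢 : Subgroup (Equiv.Perm (Fin e)))
    (h1 : GalIs (fun i => algebraMap (MvPolynomial (Fin (n + 1)) (𝓞 L))
      (FractionRing (MvPolynomial (Fin (n + 1)) (𝓞 L))) (h i)) 𝒢)
    (σ₁ : L →+* ℂ) (y v : Fin (n + 1) → ℂ)
    (h2 : GalIs (Pool.Agent.N89.HG.ev ((RatFunc.C : ℂ →+* RatFunc ℂ).comp (toC σ₁)) h
      (fun j => RatFunc.C (y j) + RatFunc.C (v j) * RatFunc.X)) 𝒢)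
    (σ₀ : K →+* ℂ) (Φ : Fin (n + 1) → Pol (𝓞 K) r s 0)
    (ι : Fin (n + 1) → Type) [∀ i, Fintype (ι i)] (Λ : (i : Fin (n + 1)) → ι i → Pol (𝓞 K) r s 0)
    (d : Fin r → ℕ) (hdΦ : ∀ i, MHomog (Φ i) d) (hdΛ : ∀ i x, MHomog (Λ i x) d)
    (hbp : ∀ i (V : Fin r → Fin 3 → ℂ) (u : Fin s → ℂ), OnB a b V u →
      ∃ x, vl (toC σ₀) (Λ i x) V u Fin.elim0 ≠ 0) (S : ℕ) (hS : 1 ≤ S) :
    StrongNull (BadHA ω a b h 𝒢 Φ Λ S) := by
  classical
  have : Fintype 𝒢 := Fintype.ofFinite _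
  obtain ⟨x, hx, hx'⟩ := h1
  obtain ⟨R⟩ := Pool.Agent.N441.HG.main L (n + 1) e h 𝒢 x hx (fun τ => by
    have hK : ∃ σ : Equiv.Perm (Fin e), ∀ i, τ (x i) = x (σ i) := by
      -- automorphisms permute the roots
      have hroot : ∀ i, ∃ j, τ (x i) = x j := by
        intro i
        have h3 := hx.2.2
        have h4 := congrArg (Polynomial.eval (x i)) h3
        rw [Polynomial.eval_mul, Polynomial.eval_prod, Finset.prod_eq_zero (Finset.mem_univ i)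
          (by simp), mul_zero] at h4
        have h5 : Polynomial.eval (τ (x i)) ((pol (fun i => algebraMap
            (MvPolynomial (Fin (n + 1)) (𝓞 L))
            (FractionRing (MvPolynomial (Fin (n + 1)) (𝓞 L))) (h i))).map
            (algebraMap (FractionRing (MvPolynomial (Fin (n + 1)) (𝓞 L)))
              (AlgebraicClosure (FractionRing (MvPolynomial (Fin (n + 1)) (𝓞 L)))))) = 0 := by
          rw [Polynomial.eval_map_algebraMap] at h4 ⊢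
          have h6 := Polynomial.aeval_algHom_apply
            (τ : AlgebraicClosure (FractionRing (MvPolynomial (Fin (n + 1)) (𝓞 L)))
            →ₐ[FractionRing (MvPolynomial (Fin (n + 1)) (𝓞 L))]
            AlgebraicClosure (FractionRing (MvPolynomial (Fin (n + 1)) (𝓞 L)))) (x i)
            (pol (fun i => algebraMap (MvPolynomial (Fin (n + 1)) (𝓞 L))
            (FractionRing (MvPolynomial (Fin (n + 1)) (𝓞 L))) (h i)))
          rw [h4, map_zero] at h6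
          exact h6
        rw [h3, Polynomial.eval_mul, Polynomial.eval_C, Polynomial.eval_prod] at h5
        rcases mul_eq_zero.1 h5 with h6 | h6
        · exact absurd h6 ((map_ne_zero _).2 hx.1)
        · obtain ⟨j, -, hj⟩ := Finset.prod_eq_zero_iff.1 h6
          rw [Polynomial.eval_sub, Polynomial.eval_X, Polynomial.eval_C, sub_eq_zero] at hj
          exact ⟨j, hj⟩
      choose f hf using hroot
      have hfi : Function.Injective f := by
        intro i j hij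
        apply hx.2.1
        apply τ.injective
        rw [hf, hf, hij]
      exact ⟨Equiv.ofBijective f (Finite.injective_iff_bijective.1 hfi), fun i => hf i⟩
    obtain ⟨σ, hσ⟩ := hK
    exact ⟨σ, (hx' σ).2 ⟨τ, hσ⟩, hσ⟩)
  obtain ⟨Di, hDi⟩ := Pool.Agent.N953.HG.main e
  obtain ⟨z, hz, hz'⟩ := h2
  have hev : Pool.Agent.N89.HG.ev ((RatFunc.C : ℂ →+* RatFunc ℂ).comp (toC σ₁)) h
      (fun j => RatFunc.C (y j) + RatFunc.C (v j) * RatFunc.X) =
      fun i => algebraMap (Polynomial ℂ) (RatFunc ℂ)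
        (Pool.Agent.N89.HG.ev ((Polynomial.C : ℂ →+* Polynomial ℂ).comp (toC σ₁)) h (pt y v) i) := by
    funext i
    unfold Pool.Agent.N89.HG.ev
    rw [hom_eval₂]
    have e1 : (RatFunc.C : ℂ →+* RatFunc ℂ).comp (toC σ₁) =
        (algebraMap (Polynomial ℂ) (RatFunc ℂ)).comp
          ((Polynomial.C : ℂ →+* Polynomial ℂ).comp (toC σ₁)) := by
      refine RingHom.ext fun x => ?_
      rw [RingHom.comp_apply, RingHom.comp_apply, RingHom.comp_apply, RatFunc.algebraMap_C]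
    have e2 : (fun j => RatFunc.C (y j) + RatFunc.C (v j) * RatFunc.X) =
        (algebraMap (Polynomial ℂ) (RatFunc ℂ)) ∘ pt y v := by
      funext j
      simp [pt, RatFunc.algebraMap_C, RatFunc.algebraMap_X]
    rw [e1, e2]
    rfl
  rw [hev] at hz
  have hg := Pool.Agent.N595.HG.main (𝓞 L) (n + 1) e h 𝒢 R Di (toC σ₁) y v z hDi hz
    (fun σ hσ => (hz' σ).1 hσ)
  have hC : CndG (toC σ₁) R Di := by
    obtain ⟨hg1, ω₀, hg2⟩ := hg
    exact ⟨y, v, ω₀, hg1, hg2⟩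
  exact strongHA K L hcmp N ω r s n e D a b hab h hh 𝒢 R Di hDi σ₁ hC σ₀ Φ ι Λ d hdΦ hdΛ hbp S hS

end Pool.Agent.Run7.h316.EQ.HA
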