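import Pool.Agent.Run7.h316.EQ.Null
import Pool.Agent.H901R3.MS.AllK

/-!
# The exceptional sets of the project MS of helper901 are strongly null

The Mordell-Weil sieve for cyclic covers of products of CM elliptic curves (compare
`Pool.Agent.H901R3.MS.t_Z0K`, `Pool.Agent.H901R3.MS.t_Z1K`).
-/

set_option autoImplicit false

namespace Pool.Agent.Run7.h316.EQ.MS

open WeierstrassCurve NumberField Filter Topology Pool.Agent.H901R3.MS
  Pool.Agent.H901R3.MS.W_Z0K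
open Pool.Agent.Run7.h316.EQ (StrongNull strong_of_data)

/-- good sets of primes -/
theorem goodMS (K : Type) [Field K] [NumberField K] (A B : Prop)
    (hA : A → ¬ ∃ x : K, x ^ 2 = -1) (hB : B → ¬ ∃ x : K, x ^ 2 = -3) (M R : ℕ) (ε : ℝ)
    (hε : 0 < ε) :
    ∃ (T : Finset ℕ) (L : ℕ), 1 ≤ L ∧ (∀ p ∈ T, p.Prime ∧ M ≤ p ∧ CondP A B p ∧
      Nonempty (𝓞 K →+* ZMod p) ∧ p + 1 ∣ L) ∧
      (L : ℝ) ^ R * (Real.sqrt (2 / 3)) ^ T.card ≤ ε := by
  classical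
  obtain ⟨τ, hτ0, hτ1, κ, hκ, Y, hY⟩ := spK K A B hA hB
  obtain ⟨c, hc, H₀, hH3, hAs⟩ := t_ASYK 0 R (κ / 8) τ (by positivity) hτ0 hτ1
  set N : ℕ := ⌈(4 * ((M : ℝ) + 1) / κ) ^ 2⌉₊ with hN
  -- the choice of `H`
  have hx : Tendsto (fun x : ℝ => x / Real.log x) atTop atTop := by
    have h1 : Tendsto (fun x : ℝ => Real.log x / x) atTop (𝓝[>] 0) := by
      refine tendsto_nhdsWithin_iff.2 ⟨Real.isLittleO_log_id_atTop.tendsto_div_nhds_zero, ?_⟩
      filter_upwards [eventually_gt_atTop 1] with x hx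
      exact div_pos (Real.log_pos hx) (by linarith)
    have h2 := h1.inv_tendsto_nhdsGT_zero
    refine h2.congr fun x => ?_
    simp [inv_div]
  have hyy : Tendsto (fun H : ℕ => Real.log H / Real.log (Real.log H)) atTop atTop :=
    hx.comp (Real.tendsto_log_atTop.comp tendsto_natCast_atTop_atTop)
  have hz : Tendsto (fun H : ℕ => Real.exp (-c * (Real.log H / Real.log (Real.log H)))) atTop
      (𝓝 0) := by
    have h2 := Real.tendsto_exp_neg_atTop_nhds_zero.comp (hyy.const_mul_atTop hc)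
    refine h2.congr fun H => ?_
    simp [neg_mul]
  obtain ⟨H, hH0, hH1, hH2⟩ := ((eventually_ge_atTop H₀).and
    ((eventually_ge_atTop (4 ^ (max Y (max 3 N)))).and
      (hz.eventually_lt_const hε))).exists
  have hy0 := W_Z1K.le_floor_of_pow hH1
  set y : ℕ := ⌊Real.log (2 * H + 1) / Real.log 4⌋₊ with hy
  have hyY : Y ≤ y := (le_max_left _ _).trans hy0
  have hy3 : 3 ≤ y := ((le_max_left _ _).trans (le_max_right _ _)).trans hy0
  have hyN : N ≤ y := ((le_max_right _ _).trans (le_max_right _ _)).trans hy0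
  set T : Finset ℕ := (DegP K A B y \ RoughP τ y).filter (fun p => M ≤ p) with hT
  have hmemT : ∀ p ∈ T, (1 ≤ p ∧ p ≤ y) ∧ (p.Prime ∧ CondP A B p ∧
      Nonempty (𝓞 K →+* ZMod p)) ∧
      (∀ q : ℕ, q.Prime → q ∣ p + 1 → q ≤ ⌊(y : ℝ) ^ τ⌋₊) ∧ M ≤ p := by
    intro p hp
    rw [hT, Finset.mem_filter, Finset.mem_sdiff] at hp
    obtain ⟨⟨h1, h3⟩, h2⟩ := hp
    unfold DegP at h1
    rw [Finset.mem_filter, Finset.mem_Icc] at h1
    refine ⟨h1.1, h1.2, ?_, h2⟩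
    intro q hq hqp
    by_contra hcon
    apply h3
    unfold RoughP
    rw [Finset.mem_filter, Finset.mem_Icc]
    exact ⟨h1.1, h1.2.1, q, hq, hqp, not_le.1 hcon⟩
  have hcard : ((DegP K A B y \ RoughP τ y).card : ℝ) ≤ (T.card : ℝ) + M := by
    have h1 : DegP K A B y \ RoughP τ y ⊆ T ∪ Finset.range M := by
      intro p hp
      rw [Finset.mem_union]
      by_cases hpM : M ≤ p
      · left
        rw [hT, Finset.mem_filter]
        exact ⟨hp, hpM⟩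
      · right
        rw [Finset.mem_range]
        omega
    have h2 := (Finset.card_le_card h1).trans (Finset.card_union_le _ _)
    rw [Finset.card_range] at h2
    exact_mod_cast h2
  have hκy := hY y hyY
  have hyr3 : (3 : ℝ) ≤ (y : ℝ) := by exact_mod_cast hy3
  have hMy : (M : ℝ) + 1 ≤ κ / 2 * (y / Real.log y) := by
    have h1 := W_Z1K.div_log_ge hyr3
    have h2 : 4 * ((M : ℝ) + 1) / κ ≤ Real.sqrt y := by
      apply Real.le_sqrt_of_sq_le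
      have h3 : (4 * ((M : ℝ) + 1) / κ) ^ 2 ≤ (N : ℝ) := Nat.le_ceil _
      have h4 : (N : ℝ) ≤ (y : ℝ) := by exact_mod_cast hyN
      exact h3.trans h4
    have h5 : 4 * ((M : ℝ) + 1) ≤ Real.sqrt y * κ := by
      rwa [div_le_iff₀ hκ] at h2
    have h6 : κ / 2 * (Real.sqrt y / 2) ≤ κ / 2 * (y / Real.log y) :=
      mul_le_mul_of_nonneg_left h1 (by positivity)
    nlinarith
  have hMp : (0 : ℝ) ≤ M := Nat.cast_nonneg M
  have hhalf : κ / 8 * (y / Real.log y) ≤ ((T.card / 2 : ℕ) : ℝ) := by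
    have h1 : T.card ≤ 2 * (T.card / 2) + 1 := by omega
    have h2 : (T.card : ℝ) ≤ 2 * ((T.card / 2 : ℕ) : ℝ) + 1 := by exact_mod_cast h1
    have h3 : κ * (y / Real.log y) = 2 * (κ / 2 * (y / Real.log y)) := by ring
    have h4 : κ / 8 * (y / Real.log y) = 1 / 4 * (κ / 2 * (y / Real.log y)) := by ring
    rw [h4]
    rw [h3] at hκy
    linarith
  -- the integer `L`
  obtain ⟨L, hL1, hL2, hL3⟩ := t_LY y ⌊(y : ℝ) ^ τ⌋₊
  have hL2' : (L : ℝ) ≤ ((y : ℝ) + 1) ^ ⌊(y : ℝ) ^ τ⌋₊ := by exact_mod_cast hL2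
  have hdiv : ∀ p ∈ T, p + 1 ∣ L := by
    intro p hp
    obtain ⟨h1, h2, h3, h4⟩ := hmemT p hp
    exact hL3 (p + 1) (by omega) (by omega) h3
  refine ⟨T, L, hL1, fun p hp => ?_, ?_⟩
  · obtain ⟨h1, h2, h3, h4⟩ := hmemT p hp
    exact ⟨h2.1, h4, h2.2.1, h2.2.2, hdiv p hp⟩
  · have h1 := hAs H hH0 y (T.card / 2) L hy hhalf hL2'
    rw [pow_zero, pow_zero, one_mul, one_mul] at h1
    have h2 : (Real.sqrt (2 / 3)) ^ T.card ≤ (2 / 3 : ℝ) ^ (T.card / 2) := by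
      have h3 : (Real.sqrt (2 / 3)) ^ T.card ≤ (Real.sqrt (2 / 3)) ^ (2 * (T.card / 2)) :=
        pow_le_pow_of_le_one (Real.sqrt_nonneg _) (Real.sqrt_le_one.2 (by norm_num)) (by omega)
      rwa [pow_mul, Real.sq_sqrt (by norm_num)] at h3
    calc (L : ℝ) ^ R * (Real.sqrt (2 / 3)) ^ T.card ≤ (L : ℝ) ^ R * (2 / 3 : ℝ) ^ (T.card / 2) :=
          mul_le_mul_of_nonneg_left h2 (by positivity)
      _ ≤ _ := h1
      _ ≤ ε := hH2.le

/-- the classes of the Mordell-Weil sieve -/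
theorem classesMS (K : Type) [Field K] [NumberField K] {r : ℕ} (a b : Fin r → 𝓞 K)
    (hCM : ∀ i, (b i = 0 ∧ a i ≠ 0) ∨ (a i = 0 ∧ b i ≠ 0))
    (l m : ℕ) (hl : l.Prime) (hlm : l ∣ m) (hm : 1 ≤ m) (S : Type) [Fintype S] [DecidableEq S]
    (f : S → (Expo r →₀ 𝓞 K)) (d : Fin r → ℕ) (hd : ∀ i, m ∣ d i) (hf : ∀ s, HomogR (f s) d) :
    ∃ p₀ R : ℕ, ∀ T : Finset ℕ,
      (∀ (p : ℕ) (hp : p.Prime), p ∈ T → p₀ ≤ p ∧ CondP (∃ i, b i = 0) (∃ i, a i = 0) p ∧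
        (l = 2 ∨ p % l = 1) ∧ ∃ φ : 𝓞 K →+* ZMod p, @NoZeroK K _ _ r a b S f p ⟨hp⟩ φ) →
      (∀ p ∈ T, p.Prime) → ∀ L : ℕ, 1 ≤ L → (∀ p ∈ T, p + 1 ∣ L) →
      ∃ (Q : Type) (_ : Fintype Q) (G : Q → (p : ℕ) → Set (S → ZMod p)),
        Fintype.card Q ≤ L ^ R ∧
        (∀ x, ∀ p ∈ T, (((G x p).ncard : ℕ) : ℝ) ≤ 2 / 3 * (p : ℝ) ^ Fintype.card S) ∧
        ∀ c ∈ {c : S → ℤ | HasPtK a b m f c}, ∃ x, ∀ p ∈ T,
          (fun i => (c i : ZMod p)) ∈ G x p := by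
  classical
  have h1 : ∀ i, ∃ R : ℕ, ∀ L : ℕ, 1 ≤ L → ∃ A : Finset (Pt (a i : K) (b i : K)),
      A.card ≤ L ^ R ∧ ∀ g : Pt (a i : K) (b i : K), ∃ κ ∈ A, ∃ δ : Pt (a i : K) (b i : K),
        g = κ + L • δ := by
    intro i
    exact t_M2 _ (t_M1K K (a i : K) (b i : K) (disc_K (hCM i)))
  choose R hR using h1
  refine ⟨5 + ∑ i, (nm (a i) + nm (b i)) + 1, ∑ i, R i, ?_⟩
  intro T hT hTp L hL hTL
  have h2 : ∀ i, ∃ A : Finset (Pt (a i : K) (b i : K)),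
      A.card ≤ L ^ (R i) ∧ ∀ g : Pt (a i : K) (b i : K), ∃ κ ∈ A, ∃ δ : Pt (a i : K) (b i : K),
        g = κ + L • δ := fun i => hR i L hL
  choose A hAc hAr using h2
  have hle : ∀ i, nm (a i) + nm (b i) ≤ ∑ i, (nm (a i) + nm (b i)) := fun i =>
    Finset.single_le_sum (f := fun i => nm (a i) + nm (b i)) (fun _ _ => Nat.zero_le _)
      (Finset.mem_univ i)
  have key : ∀ p : ℕ, p ∈ T → ∃ Φ : (∀ i, Pt (a i : K) (b i : K)) → S → ZMod p,
      (∀ κ, ∃ s, Φ κ s ≠ 0) ∧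
      ∀ (κ δ : ∀ i, Pt (a i : K) (b i : K)) (c : S → ℤ) (w : K),
        w ^ m = FcR (algebraMap (𝓞 K) K) f c (fun i => rep (κ i + L • δ i)) →
          ∃ t : ZMod p, t ^ m = ∑ s, (c s : ZMod p) * Φ κ s := by
    intro p hp
    have hpp := hTp p hp
    haveI : Fact p.Prime := ⟨hpp⟩
    obtain ⟨h3, h4, _, φ, h5⟩ := hT p hpp hp
    refine loc (t_R6K t_R1K t_R2K t_R3K t_R4K t_R5K) (t_R7K t_R1K) t_PLK t_C1K t_C2K t_HOK t_EVRK
      t_LCK hCM hm f d hd hf p (by omega) ?_ ?_ h4 φ h5 L (hTL p hp)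
    · intro i
      have := hle i
      omega
    · intro i
      have := hle i
      omega
  choose Φ hΦ1 hΦ2 using key
  let G : (∀ i, Pt (a i : K) (b i : K)) → (p : ℕ) → Set (S → ZMod p) := fun κ p =>
    {c | ∃ hp : p ∈ T, ∃ t : ZMod p, t ^ m = ∑ s, c s * Φ p hp κ s}
  have hG : ∀ κ, ∀ p ∈ T, (((G κ p).ncard : ℕ) : ℝ) ≤ 2 / 3 * (p : ℝ) ^ Fintype.card S := by
    intro κ p hp
    have hpp := hTp p hp
    haveI : Fact p.Prime := ⟨hpp⟩
    obtain ⟨h3, _, h4, _⟩ := hT p hpp hp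
    have h6 := t_LF t_MP p (by omega) l m hl hlm h4 S (Φ p hp κ) (hΦ1 p hp κ)
    have h7 : G κ p = {c : S → ZMod p | ∃ t : ZMod p, t ^ m = ∑ s, c s * Φ p hp κ s} := by
      ext c
      constructor
      · rintro ⟨_, h⟩
        exact h
      · intro h
        exact ⟨hp, h⟩
    rw [h7]
    exact h6
  refine ⟨{κ : ∀ i, Pt (a i : K) (b i : K) // κ ∈ Fintype.piFinset A}, inferInstance,
    fun κ p => G κ.1 p, ?_, fun κ p hp => hG κ.1 p hp, ?_⟩
  · rw [Fintype.card_coe, Fintype.card_piFinset, ← Finset.prod_pow_eq_pow_sum]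
    exact Finset.prod_le_prod (fun i _ => Nat.zero_le _) fun i _ => hAc i
  · intro c hc2
    obtain ⟨P, w, hw⟩ := t_HPK t_HOK t_PTSK K r a b (fun i => disc_K (hCM i)) m hm S f d hd hf c hc2
    have h3 : ∀ i, ∃ κ ∈ A i, ∃ δ : Pt (a i : K) (b i : K), P i = κ + L • δ := fun i =>
      hAr i (P i)
    choose κ hκ δ hδ using h3
    refine ⟨⟨κ, Fintype.mem_piFinset.2 hκ⟩, ?_⟩
    intro p hp
    refine ⟨hp, ?_⟩
    refine hΦ2 p hp κ δ c w ?_
    rw [hw]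
    congr 1
    funext i
    rw [hδ i]

theorem strongMS (K : Type) [Field K] [NumberField K] {r : ℕ} (a b : Fin r → 𝓞 K)
    (hCM : ∀ i, (b i = 0 ∧ a i ≠ 0 ∧ ¬ ∃ x : K, x ^ 2 = -1) ∨
      (a i = 0 ∧ b i ≠ 0 ∧ ¬ ∃ x : K, x ^ 2 = -3))
    (l m : ℕ) (hl : l.Prime) (hlm : l ∣ m) (hm : 1 ≤ m)
    (hζ : l = 2 ∨ ∃ ζ : K, IsPrimitiveRoot ζ l) (S : Type) [Fintype S] [DecidableEq S]
    (f : S → (Expo r →₀ 𝓞 K)) (d : Fin r → ℕ) (hd : ∀ i, m ∣ d i) (hf : ∀ s, HomogR (f s) d)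
    (hNZ : ∃ p₁ : ℕ, ∀ (p : ℕ) (hp : p.Prime), p₁ ≤ p → CondP (∃ i, b i = 0) (∃ i, a i = 0) p →
      ∀ φ : 𝓞 K →+* ZMod p, @NoZeroK K _ _ r a b S f p ⟨hp⟩ φ) :
    StrongNull {c : S → ℤ | HasPtK a b m f c} := by
  obtain ⟨p₁, hp₁⟩ := hNZ
  obtain ⟨p₀, R, hS⟩ := classesMS K a b
    (fun i => (hCM i).imp (fun h => ⟨h.1, h.2.1⟩) (fun h => ⟨h.1, h.2.1⟩)) l m hl hlm hm S f d hd hf
  have hA' : (∃ i, b i = 0) → ¬ ∃ x : K, x ^ 2 = -1 := by
    rintro ⟨i, hi⟩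
    rcases hCM i with h | h
    · exact h.2.2
    · exact absurd hi h.2.1
  have hB' : (∃ i, a i = 0) → ¬ ∃ x : K, x ^ 2 = -3 := by
    rintro ⟨i, hi⟩
    rcases hCM i with h | h
    · exact absurd hi h.2.1
    · exact h.2.2
  have hs : (2 / 3 : ℝ) < Real.sqrt (2 / 3) := by
    apply Real.lt_sqrt_of_sq_lt
    norm_num
  refine strong_of_data (θ := 2 / 3) (θ' := Real.sqrt (2 / 3)) (by norm_num) hs ?_
  intro D ε hε
  obtain ⟨T, L, hL, hT, hTε⟩ := goodMS K (∃ i, b i = 0) (∃ i, a i = 0) hA' hB'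
    (max (max p₀ p₁) (l + 1) + D + 1) R ε hε
  obtain ⟨Q, iQ, G, hQ, hG, hB⟩ := hS T (by
    intro p hp hpT
    obtain ⟨_, h2, h3, ⟨φ⟩, _⟩ := hT p hpT
    have e1 : max p₀ p₁ ≤ p := ((le_max_left _ (l + 1)).trans (by omega : _ ≤ _)).trans h2
    have e2 : l + 1 ≤ p := ((le_max_right (max p₀ p₁) _).trans (by omega : _ ≤ _)).trans h2
    refine ⟨(le_max_left _ _).trans e1, h3, ?_, φ, hp₁ p hp ((le_max_right _ _).trans e1) h3 φ⟩
    by_cases hl2 : l = 2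
    · exact Or.inl hl2
    · right
      rcases hζ with h | h
      · exact absurd h hl2
      · have : Fact p.Prime := ⟨hp⟩
        exact t_ZLK K l hl hl2 h p (by omega) φ) (fun p hp => (hT p hp).1) L hL
      (fun p hp => (hT p hp).2.2.2.2)
  refine ⟨T, Q, iQ, G, fun p hp => ⟨(hT p hp).1, ?_⟩, ?_, hG, hB⟩
  · have := (hT p hp).2.1
    omega
  · refine le_trans (mul_le_mul_of_nonneg_right ?_ (by positivity)) hTε
    exact_mod_cast hQ

/-! ### Points over extensions -/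

section

variable {K L : Type} [Field K] [NumberField K] [Field L] [NumberField L] [Algebra K L] {n r : ℕ}

/-- the monomials times basis elements, with coefficients in `𝓞 L` -/
noncomputable def fSL (L : Type) [Field L] [NumberField L] [Algebra K L]
    (ω : Module.Basis (Fin n) ℤ (𝓞 K)) (S : Finset (Expo r)) (s : S × Fin n) :
    Expo r →₀ 𝓞 L := Finsupp.single s.1.1 (algebraMap (𝓞 K) (𝓞 L) (ω s.2))

theorem evR_fSL {F : Type} [Field F] (φ : 𝓞 L →+* F) (ω : Module.Basis (Fin n) ℤ (𝓞 K))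
    (S : Finset (Expo r)) (s : S × Fin n) (V : Fin r → Fin 3 → F) :
    evR φ (fSL L ω S s) V = φ (algebraMap (𝓞 K) (𝓞 L) (ω s.2)) * mono s.1.1 V := by
  unfold evR fSL
  rw [Finsupp.sum_single_index (by simp)]

theorem homog_fSL (ω : Module.Basis (Fin n) ℤ (𝓞 K)) {S : Finset (Expo r)} {d : Fin r → ℕ}
    (hS : ∀ e ∈ S, ∀ i, ∑ j, e i j = d i) (s : S × Fin n) : HomogR (fSL L ω S s) d := by
  intro e' he' i
  have h1 : e' ∈ ({s.1.1} : Finset (Expo r)) := Finsupp.support_single_subset he'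
  rw [Finset.mem_singleton] at h1
  rw [h1]
  exact hS s.1.1 s.1.2 i

theorem noZeroL (ω : Module.Basis (Fin n) ℤ (𝓞 K)) (a b : Fin r → 𝓞 L) {d : Fin r → ℕ}
    {S : Finset (Expo r)}
    (hσ : ∀ σ : Fin r → Fin 3, (fun i j => if j = σ i then d i else 0) ∈ S)
    (p : ℕ) [Fact p.Prime] (φ : 𝓞 L →+* ZMod p) : NoZeroK a b (fSL L ω S) p φ := by
  intro P
  choose σ hσ' using fun i => W_ZAK.rep_ne (P i)
  obtain ⟨j, hj⟩ := W_ZAK.basis_ne (φ.comp (algebraMap (𝓞 K) (𝓞 L))) ω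
  refine ⟨(⟨_, hσ σ⟩, j), ?_⟩
  rw [evR_fSL]
  refine mul_ne_zero hj ?_
  unfold mono
  refine Finset.prod_ne_zero_iff.2 fun i _ => Finset.prod_ne_zero_iff.2 fun j _ => ?_
  show rep (P i) j ^ (if j = σ i then d i else 0) ≠ 0
  by_cases hj : j = σ i
  · rw [if_pos hj, hj]
    exact pow_ne_zero _ (hσ' i)
  · rw [if_neg hj, pow_zero]
    exact one_ne_zero

theorem coe_algebraMap (x : 𝓞 K) :
    ((algebraMap (𝓞 K) (𝓞 L) x : 𝓞 L) : L) = algebraMap K L (x : K) := rfl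

theorem fcL_eq (ω : Module.Basis (Fin n) ℤ (𝓞 K)) (S : Finset (Expo r)) (c : S × Fin n → ℤ)
    (V : Fin r → Fin 3 → L) :
    FcR (algebraMap (𝓞 L) L) (fSL L ω S) c V =
      ∑ e : S, algebraMap K L ((∑ j, c (e, j) • ω j : 𝓞 K) : K) * ∏ i, ∏ j, V i j ^ e.1 i j := by
  unfold FcR
  rw [Fintype.sum_prod_type]
  refine Finset.sum_congr rfl fun e _ => ?_
  have h1 : algebraMap K L ((∑ j, c (e, j) • ω j : 𝓞 K) : K) =
      ∑ j, (c (e, j) : L) * algebraMap K L ((ω j : 𝓞 K) : K) := by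
    have h2 : ((∑ j, c (e, j) • ω j : 𝓞 K) : K) =
        algebraMap (𝓞 K) K (∑ j, c (e, j) • ω j) := rfl
    rw [h2, map_sum, map_sum]
    refine Finset.sum_congr rfl fun j _ => ?_
    rw [map_zsmul, map_zsmul, zsmul_eq_mul]
  rw [h1, Finset.sum_mul]
  refine Finset.sum_congr rfl fun j _ => ?_
  rw [evR_fSL, ← mul_assoc]
  rfl

/-- the coefficients for which the cyclic cover has an `L`-rational point -/
def HasPt (L : Type) [Field L] [Algebra K L] (ω : Module.Basis (Fin n) ℤ (𝓞 K))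
    (a b : Fin r → 𝓞 K) (m : ℕ) (S : Finset (Fin r → Fin 3 → ℕ)) : Set (S × Fin n → ℤ) :=
  {c | ∃ (V : Fin r → Fin 3 → L) (w : L),
    (∀ i, OnK (algebraMap K L (a i)) (algebraMap K L (b i)) (V i)) ∧
      w ^ m = ∑ e : S, algebraMap K L ((∑ j, c (e, j) • ω j : 𝓞 K) : K) *
        ∏ i, ∏ j, V i j ^ e.1 i j}

/-- the conditions on the field `L` -/
def Good (L : Type) [Field L] (a b : Fin r → 𝓞 K) (m : ℕ) : Prop :=
  ((∃ i, b i = 0) → ¬ ∃ x : L, x ^ 2 = -1) ∧ ((∃ i, a i = 0) → ¬ ∃ x : L, x ^ 2 = -3) ∧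
    ∃ l : ℕ, l.Prime ∧ l ∣ m ∧ (l = 2 ∨ ∃ ζ : L, IsPrimitiveRoot ζ l)

theorem strongL (ω : Module.Basis (Fin n) ℤ (𝓞 K)) (a b : Fin r → 𝓞 K)
    (hE : ∀ i, (b i = 0 ∧ a i ≠ 0) ∨ (a i = 0 ∧ b i ≠ 0)) (m : ℕ) (hm : 1 ≤ m)
    (d : Fin r → ℕ) (hd : ∀ i, m ∣ d i)
    (S : Finset (Fin r → Fin 3 → ℕ)) (hS : ∀ e ∈ S, ∀ i, ∑ j, e i j = d i)
    (hpure : ∀ σ : Fin r → Fin 3, (fun i j => if j = σ i then d i else 0) ∈ S)
    (hL : Good L a b m) : StrongNull (HasPt L ω a b m S) := by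
  classical
  obtain ⟨hA, hB, l, hl, hlm, hζ⟩ := hL
  have hinj : Function.Injective (algebraMap (𝓞 K) (𝓞 L)) := by
    intro x y hxy
    have h1 := congrArg (fun z : 𝓞 L => (z : L)) hxy
    simp only [coe_algebraMap] at h1
    exact RingOfIntegers.ext ((algebraMap K L).injective h1)
  have hz : ∀ x : 𝓞 K, algebraMap (𝓞 K) (𝓞 L) x = 0 ↔ x = 0 := fun x =>
    map_eq_zero_iff _ hinj
  have h1 := strongMS L (fun i => algebraMap (𝓞 K) (𝓞 L) (a i))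
    (fun i => algebraMap (𝓞 K) (𝓞 L) (b i)) (by
      intro i
      rcases hE i with h | h
      · exact Or.inl ⟨(hz _).2 h.1, fun h2 => h.2 ((hz _).1 h2), hA ⟨i, h.1⟩⟩
      · exact Or.inr ⟨(hz _).2 h.1, fun h2 => h.2 ((hz _).1 h2), hB ⟨i, h.1⟩⟩)
    l m hl hlm hm hζ (S × Fin n) (fSL L ω S) d hd (homog_fSL ω hS)
    ⟨0, fun p hp _ _ φ => @noZeroL K L _ _ _ _ _ n r ω _ _ d S hpure p ⟨hp⟩ φ⟩
  have h2 : HasPt L ω a b m S = {c : S × Fin n → ℤ |
      HasPtK (fun i => algebraMap (𝓞 K) (𝓞 L) (a i)) (fun i => algebraMap (𝓞 K) (𝓞 L) (b i)) m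
        (fSL L ω S) c} := by
    ext c
    unfold HasPt HasPtK
    simp only [fcL_eq, coe_algebraMap, Set.mem_ofPred_eq]
  rw [h2]
  exact h1

end

/-- the embedding in the countable family -/
theorem cover {K L : Type} [Field K] [NumberField K] [Field L] [NumberField L] [Algebra K L] :
    ∃ (θ : AlgebraicClosure K) (g : L →ₐ[K] IntermediateField.adjoin K {θ}),
      Function.Surjective g := by
  classical
  have hfd : FiniteDimensional K L := inferInstance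
  obtain ⟨α, hα⟩ := Field.exists_primitive_element K L
  let f : L →ₐ[K] AlgebraicClosure K := IsAlgClosed.lift
  have hmem : ∀ x, f x ∈ IntermediateField.adjoin K {f α} := by
    intro x
    have h1 : x ∈ IntermediateField.adjoin K {α} := by rw [hα]; exact IntermediateField.mem_top
    have h2 : (IntermediateField.adjoin K {α}).map f = IntermediateField.adjoin K {f α} := by
      rw [IntermediateField.adjoin_map, Set.image_singleton]
    rw [← h2]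
    exact ⟨x, h1, rfl⟩
  refine ⟨f α, f.codRestrict (IntermediateField.adjoin K {f α}).toSubalgebra hmem, ?_⟩
  rintro ⟨y, hy⟩
  have h1 : IntermediateField.adjoin K {f α} ≤ f.fieldRange := by
    rw [IntermediateField.adjoin_simple_le_iff]
    exact ⟨α, rfl⟩
  obtain ⟨x, hx⟩ := h1 hy
  exact ⟨x, Subtype.ext hx⟩

theorem Good.of_surj {K L L' : Type} [Field K] [NumberField K] [Field L] [Algebra K L] [Field L']
    [Algebra K L'] (g : L →ₐ[K] L') (hg : Function.Surjective g) {r : ℕ} {a b : Fin r → 𝓞 K}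
    {m : ℕ} (h : Good L a b m) : Good L' a b m := by
  have hgi : Function.Injective g := (g : L →+* L').injective
  have hsq : ∀ z : ℤ, (¬ ∃ x : L, x ^ 2 = (z : L)) → ¬ ∃ x : L', x ^ 2 = (z : L') := by
    rintro z h1 ⟨x, hx⟩
    obtain ⟨y, rfl⟩ := hg x
    refine h1 ⟨y, hgi ?_⟩
    rw [map_pow, hx, map_intCast]
  obtain ⟨h1, h2, l, hl, hlm, h3⟩ := h
  refine ⟨fun hb => ?_, fun hb => ?_, l, hl, hlm, h3.imp_right ?_⟩
  · have := hsq (-1) (by simpa using h1 hb)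
    simpa using this
  · have := hsq (-3) (by simpa using h2 hb)
    simpa using this
  · rintro ⟨ζ, hζ⟩
    exact ⟨g ζ, hζ.map_of_injective hgi⟩

theorem hasPt_mono {K L L' : Type} [Field K] [NumberField K] [Field L] [Algebra K L] [Field L']
    [Algebra K L'] (g : L →ₐ[K] L') {n r : ℕ} (ω : Module.Basis (Fin n) ℤ (𝓞 K))
    (a b : Fin r → 𝓞 K) (m : ℕ) (S : Finset (Fin r → Fin 3 → ℕ)) :
    HasPt L ω a b m S ⊆ HasPt L' ω a b m S := by
  rintro c ⟨V, w, hV, hw⟩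
  refine ⟨fun i j => g (V i j), g w, fun i => ⟨?_, ?_⟩, ?_⟩
  · intro h
    refine (hV i).1 (funext fun j => ?_)
    have h1 := congrFun h j
    simpa using h1
  · have h1 := congrArg g (hV i).2
    simpa [map_mul, map_add, map_pow, AlgHom.commutes] using h1
  · have h1 := congrArg g hw
    simpa [map_mul, map_sum, map_prod, map_pow, AlgHom.commutes] using h1

end Pool.Agent.Run7.h316.EQ.MS
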