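import Pool.Agent.N24.RW.Crit

/-!
# Strongly null sets

The sets of integral vectors whose images modulo a squarefree number prime to a given one are small,
also compared to the number of the vectors of units.
-/

set_option autoImplicit false

namespace Pool.Agent.Run7.h316.EQ

open Filter Topology
open Pool.Agent.N24.RW (ProNull)

/-- `B` is strongly null: for all `D`, `A` and `ε` there is a squarefree number `q` prime to `D` such that
at most `ε (φ(q) / q) ^ A q ^ n` of the `q ^ n` classes modulo `q` contain elements of `B`. -/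
def StrongNull {ι : Type} [Fintype ι] (B : Set (ι → ℤ)) : Prop :=
  ∀ D : ℕ, 0 < D → ∀ (A : ℕ) (ε : ℝ), 0 < ε → ∃ q : ℕ, Squarefree q ∧ q.Coprime D ∧
    ((((fun (c : ι → ℤ) (i : ι) => (c i : ZMod q)) '' B).ncard : ℕ) : ℝ) *
      ((q : ℝ) / q.totient) ^ A ≤ ε * (q : ℝ) ^ Fintype.card ι

theorem StrongNull.mono {ι : Type} [Fintype ι] {B B' : Set (ι → ℤ)} (h : B ⊆ B')
    (hB : StrongNull B') : StrongNull B := by
  intro D hD A ε hε
  obtain ⟨q, hq, hqD, h1⟩ := hB D hD A ε hε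
  refine ⟨q, hq, hqD, le_trans ?_ h1⟩
  have : NeZero q := ⟨hq.ne_zero⟩
  refine mul_le_mul_of_nonneg_right ?_ (by positivity)
  exact Nat.cast_le.2 (Set.ncard_le_ncard (Set.image_mono h) (Set.toFinite _))

theorem StrongNull.pro {ι : Type} [Fintype ι] {B : Set (ι → ℤ)} (hB : StrongNull B) :
    ProNull B := by
  intro D hD ε hε
  obtain ⟨q, hq, hqD, h1⟩ := hB D hD 0 ε hε
  refine ⟨q, Nat.pos_of_ne_zero hq.ne_zero, hqD, ?_⟩
  simpa using h1

/-- the quotient of `q` and `φ(q)` for a product of different primes -/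
theorem div_totient_prod (T : Finset ℕ) (hT : ∀ p ∈ T, p.Prime) :
    ((∏ p ∈ T, p : ℕ) : ℝ) / ((∏ p ∈ T, p).totient : ℝ) = ∏ p ∈ T, ((p : ℝ) / ((p : ℝ) - 1)) := by
  classical
  induction T using Finset.induction_on with
  | empty => simp
  | insert p T hp ih =>
    have hT' : ∀ p ∈ T, p.Prime := fun x hx => hT x (Finset.mem_insert_of_mem hx)
    have hpp := hT p (Finset.mem_insert_self _ _)
    rw [Finset.prod_insert hp, Finset.prod_insert hp, ← ih hT']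
    have hc : Nat.Coprime p (∏ p ∈ T, p) := Nat.Coprime.prod_right fun x hx =>
      (Nat.coprime_primes hpp (hT' x hx)).2 (by rintro rfl; exact hp hx)
    rw [Nat.totient_mul hc, Nat.totient_prime hpp]
    have h1 : ((p - 1 : ℕ) : ℝ) = (p : ℝ) - 1 := by
      rw [Nat.cast_sub hpp.one_lt.le, Nat.cast_one]
    rw [Nat.cast_mul, Nat.cast_mul, h1, mul_div_mul_comm]

theorem squarefree_prod (T : Finset ℕ) (hT : ∀ p ∈ T, p.Prime) : Squarefree (∏ p ∈ T, p) := by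
  classical
  induction T using Finset.induction_on with
  | empty => simp
  | insert p T hp ih =>
    have hT' : ∀ p ∈ T, p.Prime := fun x hx => hT x (Finset.mem_insert_of_mem hx)
    have hpp := hT p (Finset.mem_insert_self _ _)
    have hc : Nat.Coprime p (∏ p ∈ T, p) := Nat.Coprime.prod_right fun x hx =>
      (Nat.coprime_primes hpp (hT' x hx)).2 (by rintro rfl; exact hp hx)
    rw [Finset.prod_insert hp, Nat.squarefree_mul hc]
    exact ⟨hpp.squarefree, ih hT'⟩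

/-- the criterion -/
theorem strong_of_data {ι : Type} [Fintype ι] {B : Set (ι → ℤ)} {θ θ' : ℝ} (hθ0 : 0 ≤ θ)
    (hθ : θ < θ')
    (h : ∀ (D : ℕ) (ε : ℝ), 0 < ε → ∃ (T : Finset ℕ) (Q : Type) (_ : Fintype Q)
      (G : Q → (p : ℕ) → Set (ι → ZMod p)), (∀ p ∈ T, p.Prime ∧ D < p) ∧
      (Fintype.card Q : ℝ) * θ' ^ T.card ≤ ε ∧
      (∀ x, ∀ p ∈ T, (((G x p).ncard : ℕ) : ℝ) ≤ θ * (p : ℝ) ^ Fintype.card ι) ∧
      ∀ c ∈ B, ∃ x, ∀ p ∈ T, (fun i => (c i : ZMod p)) ∈ G x p) : StrongNull B := by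
  classical
  intro D hD A ε hε
  -- a bound for the primes
  obtain ⟨p₂, hp₂⟩ : ∃ p₂ : ℕ, ∀ p : ℕ, p₂ ≤ p → θ * ((p : ℝ) / ((p : ℝ) - 1)) ^ A ≤ θ' := by
    have h1 : Tendsto (fun p : ℕ => (p : ℝ) / ((p : ℝ) - 1)) atTop (𝓝 1) := by
      have h2 : Tendsto (fun x : ℝ => x / (x - 1)) atTop (𝓝 1) := by
        have h3 : Tendsto (fun x : ℝ => 1 + (x - 1)⁻¹) atTop (𝓝 (1 + 0)) := by
          refine tendsto_const_nhds.add (tendsto_inv_atTop_zero.comp ?_)
          exact tendsto_atTop_add_const_right _ _ tendsto_id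
        rw [add_zero] at h3
        refine h3.congr' ?_
        filter_upwards [eventually_gt_atTop (1 : ℝ)] with x hx
        have : x - 1 ≠ 0 := by linarith
        field_simp
        ring
      exact h2.comp tendsto_natCast_atTop_atTop
    have h2 : Tendsto (fun p : ℕ => θ * ((p : ℝ) / ((p : ℝ) - 1)) ^ A) atTop
        (𝓝 (θ * 1 ^ A)) := (h1.pow A).const_mul _
    rw [one_pow, mul_one] at h2
    obtain ⟨p₂, hp₂⟩ := eventually_atTop.1 (h2.eventually (gt_mem_nhds hθ))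
    exact ⟨p₂, fun p hp => (hp₂ p hp).le⟩
  obtain ⟨T, Q, _, G, hT, hTε, hG, hB⟩ := h (D + p₂) ε hε
  have hTpr : ∀ p ∈ T, p.Prime := fun p hp => (hT p hp).1
  refine ⟨∏ p ∈ T, p, squarefree_prod T hTpr, Nat.Coprime.prod_left fun p hp => ?_, ?_⟩
  · exact ((hTpr p hp).coprime_iff_not_dvd).2 fun hd => by
      have := Nat.le_of_dvd hD hd
      have := (hT p hp).2
      omega
  have hne : NeZero (∏ p ∈ T, p) := ⟨(Finset.prod_pos fun p hp => (hTpr p hp).pos).ne'⟩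
  have hone : ∀ x : Q, ((((fun (c : ι → ℤ) (i : ι) => (c i : ZMod (∏ p ∈ T, p))) ''
      {c : ι → ℤ | ∀ p ∈ T, (fun i => (c i : ZMod p)) ∈ G x p}).ncard : ℕ) : ℝ) ≤
      θ ^ T.card * ((∏ p ∈ T, p : ℕ) : ℝ) ^ Fintype.card ι := by
    intro x
    have h1 := Pool.Agent.N24.RW.crit_count (ι := ι) (Q := fun p => p) T
      (fun p hp => (hTpr p hp).pos)
      (fun p hp p' hp' hne => (Nat.coprime_primes (hTpr p hp) (hTpr p' hp')).2 hne)
      (fun p => (G x p)ᶜ) {c : ι → ℤ | ∀ p ∈ T, (fun i => (c i : ZMod p)) ∈ G x p}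
      (fun c hc p hp hcp => hcp (hc p hp))
    refine (Nat.cast_le.2 h1).trans ?_
    rw [Nat.cast_prod]
    have h2 : ∏ p ∈ T, ((((G x p)ᶜᶜ).ncard : ℕ) : ℝ) ≤
        ∏ p ∈ T, (θ * (p : ℝ) ^ Fintype.card ι) := by
      refine Finset.prod_le_prod (fun p _ => Nat.cast_nonneg _) fun p hp => ?_
      rw [compl_compl]
      exact hG x p hp
    refine h2.trans ?_
    rw [Finset.prod_mul_distrib, Finset.prod_const, Finset.prod_pow, Nat.cast_prod]
  have hsub : ((fun (c : ι → ℤ) (i : ι) => (c i : ZMod (∏ p ∈ T, p))) '' B) ⊆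
      ⋃ x ∈ (Finset.univ : Finset Q), ((fun (c : ι → ℤ) (i : ι) => (c i : ZMod (∏ p ∈ T, p))) ''
        {c : ι → ℤ | ∀ p ∈ T, (fun i => (c i : ZMod p)) ∈ G x p}) := by
    rintro _ ⟨c, hc, rfl⟩
    obtain ⟨x, hx⟩ := hB c hc
    rw [Set.mem_iUnion₂]
    exact ⟨x, Finset.mem_univ x, c, hx, rfl⟩
  have h3 := (Set.ncard_le_ncard hsub (Set.toFinite _)).trans
    (Finset.set_ncard_biUnion_le (Finset.univ : Finset Q) _)
  have h4 : ((((fun (c : ι → ℤ) (i : ι) => (c i : ZMod (∏ p ∈ T, p))) '' B).ncard : ℕ) : ℝ) ≤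
      (Fintype.card Q : ℝ) * (θ ^ T.card * ((∏ p ∈ T, p : ℕ) : ℝ) ^ Fintype.card ι) := by
    refine (Nat.cast_le.2 h3).trans ?_
    rw [Nat.cast_sum]
    refine (Finset.sum_le_sum fun x _ => hone x).trans ?_
    rw [Finset.sum_const, nsmul_eq_mul, Finset.card_univ]
  have h5 : (0 : ℝ) ≤ (((∏ p ∈ T, p : ℕ) : ℝ) / ((∏ p ∈ T, p).totient : ℝ)) ^ A := by positivity
  refine (mul_le_mul_of_nonneg_right h4 h5).trans ?_
  rw [div_totient_prod T hTpr, ← Finset.prod_pow]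
  have h6 : θ ^ T.card * ∏ p ∈ T, ((p : ℝ) / ((p : ℝ) - 1)) ^ A ≤ θ' ^ T.card := by
    rw [← Finset.prod_const, ← Finset.prod_mul_distrib, ← Finset.prod_const]
    refine Finset.prod_le_prod (fun p hp => ?_) fun p hp => hp₂ p (by
      have := (hT p hp).2
      omega)
    have h7 : (1 : ℝ) < p := by exact_mod_cast (hTpr p hp).one_lt
    have h8 : (0 : ℝ) ≤ (p : ℝ) / ((p : ℝ) - 1) := div_nonneg (by linarith) (by linarith)
    positivity
  calc (Fintype.card Q : ℝ) * (θ ^ T.card * ((∏ p ∈ T, p : ℕ) : ℝ) ^ Fintype.card ι) *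
        ∏ p ∈ T, ((p : ℝ) / ((p : ℝ) - 1)) ^ A
      = (Fintype.card Q : ℝ) * (θ ^ T.card * ∏ p ∈ T, ((p : ℝ) / ((p : ℝ) - 1)) ^ A) *
          ((∏ p ∈ T, p : ℕ) : ℝ) ^ Fintype.card ι := by ring
    _ ≤ (Fintype.card Q : ℝ) * θ' ^ T.card * ((∏ p ∈ T, p : ℕ) : ℝ) ^ Fintype.card ι := by
        gcongr
    _ ≤ ε * ((∏ p ∈ T, p : ℕ) : ℝ) ^ Fintype.card ι := by
        gcongr

end Pool.Agent.Run7.h316.EQ
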