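import Pool.Agent.N89.BD.Eng
import Pool.Agent.Run7.h316.EQ.Null

/-!
# Pronull sets from the Mordell-Weil sieve

The sieve engine of helper89 (`Pool.Agent.N89.BD.Eng`) bounds the number of the vectors of a box; here
the same local data are used to show that the exceptional sets are pronull.
-/

set_option autoImplicit false

namespace Pool.Agent.Run7.h316.EQ

open MvPolynomial NumberField Pool.Agent.H901R3.MS Pool.Agent.W659 Pool.Agent.W659.SA
  Pool.Agent.N89.GS Pool.Agent.N89.BD WeierstrassCurve Filter Topology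
open Pool.Agent.N24.RW (ProNull)

/-- there are good finite sets of primes with many elements and a small exponent -/
theorem goodT (L : Type) [Field L] [NumberField L] (δ : ℝ) (hδ0 : 0 < δ) (hδ1 : δ < 1) (p₀ R : ℕ)
    (ε : ℝ) (hε : 0 < ε) : ∃ (T : Finset ℕ) (M : ℕ), GoodT L p₀ T M ∧
      (M : ℝ) ^ R * (1 - δ) ^ T.card ≤ ε := by
  by_contra hcon
  push Not at hcon
  have h1 : ∀ n : ℕ, ∃ A : Set (Unit × Fin 1 → ℤ), A.ncard = n := by
    intro n
    obtain ⟨s, hs⟩ := Infinite.exists_subset_card_eq (Unit × Fin 1 → ℤ) n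
    exact ⟨s, by rw [Set.ncard_coe_finset, hs]⟩
  choose A hA using h1
  obtain ⟨c, hc, H₀, h⟩ := asym L Unit 1 δ hδ0 hδ1 p₀ R
    (fun H => A ⌊2 * (2 * (H : ℝ) + 1) * ε⌋₊) (by
      intro T M hT H hH
      rw [hA]
      have h2 := hcon T M hT
      have h3 : ((⌊2 * (2 * (H : ℝ) + 1) * ε⌋₊ : ℕ) : ℝ) ≤ 2 * (2 * (H : ℝ) + 1) * ε :=
        Nat.floor_le (by positivity)
      refine h3.trans ?_
      simp only [Fintype.card_prod, Fintype.card_unit, Fintype.card_fin, mul_one, pow_one]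
      exact mul_le_mul_of_nonneg_left h2.le (by positivity))
  have hx : Tendsto (fun x : ℝ => x / Real.log x) atTop atTop := by
    have h1 : Tendsto (fun x : ℝ => Real.log x / x) atTop (𝓝[>] 0) := by
      refine tendsto_nhdsWithin_iff.2 ⟨Real.isLittleO_log_id_atTop.tendsto_div_nhds_zero, ?_⟩
      filter_upwards [eventually_gt_atTop 1] with x hx
      exact div_pos (Real.log_pos hx) (by linarith)
    have h2 := h1.inv_tendsto_nhdsGT_zero
    refine h2.congr fun x => ?_
    simp [inv_div]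
  have hy : Tendsto (fun H : ℕ => Real.log H / Real.log (Real.log H)) atTop atTop :=
    hx.comp (Real.tendsto_log_atTop.comp tendsto_natCast_atTop_atTop)
  have hz : Tendsto (fun H : ℕ => Real.exp (-c * (Real.log H / Real.log (Real.log H)))) atTop
      (𝓝 0) := by
    have h2 := Real.tendsto_exp_neg_atTop_nhds_zero.comp (hy.const_mul_atTop hc)
    refine h2.congr fun H => ?_
    simp [neg_mul]
  have hw : Tendsto (fun H : ℕ => (2 * (H : ℝ) + 1) * ε) atTop atTop := by
    refine Tendsto.atTop_mul_const hε ?_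
    exact tendsto_atTop_add_const_right _ _
      (tendsto_natCast_atTop_atTop.const_mul_atTop (by norm_num))
  obtain ⟨H, hH1, hH2, hH3⟩ := ((eventually_ge_atTop H₀).and
    ((hz.eventually_lt_const (show (0 : ℝ) < ε / 2 by positivity)).and
      (hw.eventually_ge_atTop 1))).exists
  have h2 := h H hH1
  rw [hA] at h2
  simp only [Fintype.card_unit, one_mul, pow_one] at h2
  have h3 : 2 * (2 * (H : ℝ) + 1) * ε < (⌊2 * (2 * (H : ℝ) + 1) * ε⌋₊ : ℝ) + 1 :=
    Nat.lt_floor_add_one _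
  have h4 : (2 * (H : ℝ) + 1) * Real.exp (-c * (Real.log H / Real.log (Real.log H))) ≤
      (2 * (H : ℝ) + 1) * (ε / 2) := mul_le_mul_of_nonneg_left hH2.le (by positivity)
  nlinarith

/-- the classes of the Mordell-Weil sieve for an exceptional set `B`: the vectors of `B` fall in at most
`M ^ R` classes; for the primes of a good set each class is in a set of at most `(1 - δ) p ^ n` of the
`p ^ n` residue vectors -/
def Classes (K : Type) [Field K] [NumberField K] (δ : ℝ) {ι : Type} [Fintype ι]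
    (B : Set (ι → ℤ)) : Prop :=
  ∃ p₀ R : ℕ, ∀ (T : Finset ℕ) (M : ℕ), GoodT K p₀ T M →
    ∃ (Q : Type) (_ : Fintype Q) (G : Q → (p : ℕ) → Set (ι → ZMod p)),
      Fintype.card Q ≤ M ^ R ∧
      (∀ x, ∀ p ∈ T, (((G x p).ncard : ℕ) : ℝ) ≤ (1 - δ) * (p : ℝ) ^ Fintype.card ι) ∧
      ∀ c ∈ B, ∃ x, ∀ p ∈ T, (fun i => (c i : ZMod p)) ∈ G x p

theorem strong_of_classes {K : Type} [Field K] [NumberField K] {δ : ℝ} (hδ0 : 0 < δ) (hδ1 : δ < 1)
    {ι : Type} [Fintype ι] {B : Set (ι → ℤ)} (h : Classes K δ B) : StrongNull B := by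
  refine strong_of_data (θ := 1 - δ) (θ' := 1 - δ / 2) (by linarith) (by linarith) ?_
  intro D ε hε
  obtain ⟨p₀, R, h⟩ := h
  obtain ⟨T, M, hT, hTε⟩ := goodT K (δ / 2) (by linarith) (by linarith) (p₀ + D + 1) R ε hε
  have hT' : GoodT K p₀ T M := ⟨hT.1, fun p hp => by
    obtain ⟨h1, h2, h3⟩ := hT.2 p hp
    exact ⟨h1, by omega, h3⟩⟩
  obtain ⟨Q, iQ, G, hQ, hG, hB⟩ := h T M hT'
  refine ⟨T, Q, iQ, G, fun p hp => ?_, ?_, hG, hB⟩
  · obtain ⟨h1, h2, h3⟩ := hT.2 p hp
    exact ⟨h1, by omega⟩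
  · refine le_trans (mul_le_mul_of_nonneg_right ?_ (by
      have : (0 : ℝ) ≤ 1 - δ / 2 := by linarith
      positivity)) hTε
    exact_mod_cast hQ


end Pool.Agent.Run7.h316.EQ
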