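import Pool.Agent.Run7.h316.EQ.Tests
import Pool.Agent.N84.TS.Quad

/-!
# Tuples of quadratic rational functions which are not good are very null

The count of the good tuples modulo a prime number is `Pool.Agent.TH838.DS.count_good` (helper838); good tuples:
`Pool.Agent.N84.TS.GoodQ` (helper84).
-/

set_option autoImplicit false

namespace Pool.Agent.Run7.h316.EQ

open Pool.Agent.TH838.DS (GoodT count_good)
open Pool.Agent.N84.TS (GoodQ)

/-- A condition on some of the coordinates. -/
theorem VeryNull.comap {ι κ : Type} [Fintype ι] [Fintype κ] {l : κ → ι}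
    (hl : Function.Injective l) {B : Set (κ → ℤ)} (hB : VeryNull B) :
    VeryNull {c : ι → ℤ | (fun j => c (l j)) ∈ B} := by
  classical
  intro D hD η ε hη hε
  obtain ⟨q, hq, hqD, h1, h2⟩ := hB D hD η ε hη hε
  have : NeZero q := ⟨hq.ne_zero⟩
  refine ⟨q, hq, hqD, h1, ?_⟩
  have hcard : Fintype.card ι =
      Fintype.card κ + Fintype.card {i : ι // ¬ i ∈ Set.range l} := by
    rw [Fintype.card_congr (Equiv.ofInjective l hl), ← Fintype.card_sum]
    exact (Fintype.card_congr (Equiv.sumCompl fun i => i ∈ Set.range l)).symm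
  have hle : (im q {c : ι → ℤ | (fun j => c (l j)) ∈ B}).ncard ≤
      (im q B).ncard * q ^ Fintype.card {i : ι // ¬ i ∈ Set.range l} := by
    have h3 : (im q B ×ˢ (Set.univ : Set ({i : ι // ¬ i ∈ Set.range l} → ZMod q))).ncard =
        (im q B).ncard * q ^ Fintype.card {i : ι // ¬ i ∈ Set.range l} := by
      rw [Set.ncard_prod, Set.ncard_univ, Nat.card_eq_fintype_card, Fintype.card_fun, ZMod.card]
    rw [← h3]
    refine Set.ncard_le_ncard_of_injOn (fun x => (fun j => x (l j), fun i => x i.1)) ?_ ?_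
      (Set.toFinite _)
    · rintro _ ⟨c, hc, rfl⟩
      exact ⟨⟨fun j => c (l j), hc, rfl⟩, Set.mem_univ _⟩
    · intro x _ y _ hxy
      have e1 := congrFun (Prod.ext_iff.1 hxy).1
      have e2 := congrFun (Prod.ext_iff.1 hxy).2
      funext i
      by_cases hi : i ∈ Set.range l
      · obtain ⟨j, rfl⟩ := hi
        exact e1 j
      · exact e2 ⟨i, hi⟩
  have h4 : (((im q {c : ι → ℤ | (fun j => c (l j)) ∈ B}).ncard : ℕ) : ℝ) ≤
      ((im q B).ncard : ℝ) * (q : ℝ) ^ Fintype.card {i : ι // ¬ i ∈ Set.range l} := by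
    exact_mod_cast hle
  refine h4.trans ?_
  rw [hcard, pow_add, ← mul_assoc]
  exact mul_le_mul_of_nonneg_right h2 (by positivity)

/-- For `k`-tuples of quadratic functions. -/
theorem veryNull_quad (k : ℕ) (hk : 1 ≤ k) :
    VeryNull {v : Fin k × Fin 2 × Fin (2 + 1) → ℤ | ¬ GoodQ k v} := by
  classical
  have hne : Nonempty (Fin k) := ⟨⟨0, hk⟩⟩
  have hcard : Fintype.card (Fin k × Fin 2 × Fin (2 + 1)) = 6 * k := by
    rw [Fintype.card_prod, Fintype.card_prod, Fintype.card_fin, Fintype.card_fin,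
      Fintype.card_fin]
    ring
  refine veryNull_of_tests (C := 2 * 4 ^ k * 16 ^ (k * k)) (by positivity) fun N₀ => ?_
  obtain ⟨P, hP, hPp⟩ := Nat.exists_infinite_primes (max N₀ (2 * 16 ^ k))
  have hF : Fact P.Prime := ⟨hPp⟩
  refine ⟨P, (le_max_left _ _).trans hP, hPp,
    {w | GoodT fun (i : Fin k) (q : Fin 2 × Fin (2 + 1)) => w (i, q)}, ?_, ?_⟩
  · have h1 := count_good (p := P) (ι := Fin k)
      (by rw [Fintype.card_fin]; exact (le_max_right _ _).trans hP)
    rw [Fintype.card_fin] at h1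
    rw [hcard]
    let E : (Fin k → Fin 2 × Fin (2 + 1) → ZMod P) ≃ ((Fin k × Fin 2 × Fin (2 + 1)) → ZMod P) :=
      { toFun := fun c j => c j.1 j.2
        invFun := fun w i q => w (i, q)
        left_inv := fun c => rfl
        right_inv := fun w => rfl }
    have h2 : Nat.card {c : Fin k → Fin 2 × Fin (2 + 1) → ZMod P // GoodT c} =
        ({w : (Fin k × Fin 2 × Fin (2 + 1)) → ZMod P |
          GoodT fun (i : Fin k) (q : Fin 2 × Fin (2 + 1)) => w (i, q)}).ncard := by
      rw [← Nat.card_coe_set_eq]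
      exact Nat.card_congr (E.subtypeEquiv fun c => Iff.rfl)
    rw [h2] at h1
    have h3 : (0 : ℝ) < 2 * 4 ^ k * 16 ^ (k * k) := by positivity
    rw [div_mul_eq_mul_div, one_mul, div_le_iff₀ h3] at h1
    exact_mod_cast h1.trans_eq (mul_comm _ _)
  · intro c hc hG
    refine hc ⟨P, hF, ?_, hG⟩
    have h1 : 16 ^ 1 ≤ 16 ^ k := Nat.pow_le_pow_right (by norm_num) hk
    have h2 : 2 * 16 ^ k ≤ P := (le_max_right _ _).trans hP
    omega

end Pool.Agent.Run7.h316.EQ
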