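import Pool.Agent.Run7.h316.EQ.Gen
import Pool.Agent.N890.FD.AbsQ

/-!
# Strongly null sets from sieves with the primes `p ≡ -1` modulo `M` over `ℚ`

The existence of many primes `p` with the `p + 1` dividing one number `N` of small logarithm is
`Pool.Agent.H925R3.DD.prmg'` (helpers 781, 410, 732, 55, 992, 736, 925).
-/

set_option autoImplicit false

namespace Pool.Agent.Run7.h316.EQ.SS

open Filter Topology Pool.Agent.H925R3.DC Pool.Agent.H925R3.DD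

/-- sets of primes `p ≥ p₀`, `p ≡ -1` modulo `M₁`, with `p + 1` dividing `L` -/
def GoodSS (M₁ p₀ : ℕ) (T : Finset ℕ) (L : ℕ) : Prop :=
  1 ≤ L ∧ ∀ p ∈ T, p.Prime ∧ p₀ ≤ p ∧ 2 < p ∧ M₁ ∣ p + 1 ∧ p + 1 ∣ L

theorem exi_aux (a b : ℝ) (ha : 0 < a) (hb : 0 ≤ b) :
    Tendsto (fun X : ℝ => b * X ^ (3 / 5 : ℝ) - a * X ^ (9 / 10 : ℝ)) atTop atBot := by
  have h1 : Tendsto (fun X : ℝ => X ^ (3 / 5 : ℝ)) atTop atTop :=
    tendsto_rpow_atTop (by norm_num)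
  have h2 : Tendsto (fun X : ℝ => X ^ (3 / 10 : ℝ)) atTop atTop :=
    tendsto_rpow_atTop (by norm_num)
  have h3 : Tendsto (fun X : ℝ => b - a * X ^ (3 / 10 : ℝ)) atTop atBot := by
    have h4 := (h2.const_mul_atTop ha)
    have h5 : Tendsto (fun X : ℝ => -(a * X ^ (3 / 10 : ℝ))) atTop atBot :=
      tendsto_neg_atTop_atBot.comp h4
    have h6 := tendsto_atBot_add_const_left atTop b h5
    exact h6.congr fun X => by ring
  have h4 := h1.atTop_mul_atBot₀ h3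
  refine h4.congr' ?_
  filter_upwards [eventually_gt_atTop 0] with X hX
  have h5 : X ^ (3 / 5 : ℝ) * X ^ (3 / 10 : ℝ) = X ^ (9 / 10 : ℝ) := by
    rw [← Real.rpow_add hX]
    norm_num
  rw [← h5]
  ring

theorem abundantSS (M₁ : ℕ) (hM₁ : 0 < M₁) : Abundant (GoodSS M₁) where
  one p₀ T M h := h.1
  prime p₀ T M h p hp := ⟨(h.2 p hp).1, (h.2 p hp).2.1⟩
  mono p₀ p₁ T M hp h := ⟨h.1, fun p hpT => by
    obtain ⟨h1, h2, h3⟩ := h.2 p hpT
    exact ⟨h1, hp.trans h2, h3⟩⟩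
  exi δ hδ0 hδ1 p₀ R ε hε := by
    obtain ⟨X₀, hX₀⟩ := prmg' M₁ (p₀.factorial) (-1) 1 hM₁ (Nat.factorial_pos _) ⟨-1, 0, by ring⟩
      (Or.inl rfl) (1 / 10) (by norm_num)
    have ha : 0 < -Real.log (1 - δ) := by
      have := Real.log_neg (x := 1 - δ) (by linarith) (by linarith)
      linarith
    have h1 := (exi_aux (-Real.log (1 - δ)) R ha (Nat.cast_nonneg R)).eventually_le_atBot
      (Real.log ε)
    obtain ⟨X, hX1, hX2⟩ := (h1.and (eventually_ge_atTop X₀)).exists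
    obtain ⟨S, N, hN, hS1, hS2, hN2⟩ := hX₀ X hX2
    refine ⟨S, N, ⟨hN, fun p hp => ?_⟩, ?_⟩
    · obtain ⟨a1, a2, a3, a4, a5, a6⟩ := hS1 p hp
      refine ⟨a1, ?_, a2, ?_, ?_⟩
      · by_contra hcon
        push Not at hcon
        exact a4 (Nat.dvd_factorial a1.pos hcon.le)
      · rw [sub_neg_eq_add] at a5
        exact_mod_cast a5
      · exact_mod_cast a6
    · have hN0 : (0 : ℝ) < N := by exact_mod_cast hN
      have h2 : (0 : ℝ) < 1 - δ := by linarith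
      have h3 : (N : ℝ) ^ R * (1 - δ) ^ S.card =
          Real.exp (R * Real.log N + S.card * Real.log (1 - δ)) := by
        rw [Real.exp_add, ← Real.log_pow, ← Real.log_pow, Real.exp_log (pow_pos hN0 _),
          Real.exp_log (pow_pos h2 _)]
      rw [h3, ← Real.exp_log hε]
      refine Real.exp_le_exp.2 (le_trans ?_ hX1)
      have h4 : (R : ℝ) * Real.log N ≤ R * X ^ (3 / 5 : ℝ) := by
        refine mul_le_mul_of_nonneg_left (hN2.trans (le_of_eq ?_)) (Nat.cast_nonneg R)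
        norm_num
      have h5 : (S.card : ℝ) * Real.log (1 - δ) ≤ X ^ (9 / 10 : ℝ) * Real.log (1 - δ) := by
        have h6 : X ^ (9 / 10 : ℝ) ≤ (S.card : ℝ) := by
          refine le_trans (le_of_eq ?_) hS2
          norm_num
        have h7 : Real.log (1 - δ) ≤ 0 := by linarith
        nlinarith
      linarith

/-- the classes of the sieve for a finitely generated group `G` and sets `Ω p P` which depend on `P`
modulo `p + 1` only -/
theorem classesFG (G : Type) [AddCommGroup G] [AddGroup.FG G] (ι : Type) [Fintype ι] (M₁ D : ℕ)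
    (hD : 0 < D) (Ω : (p : ℕ) → G → Set (ι → ZMod p)) (η : ℝ)
    (hp : ∀ p : ℕ, p.Prime → 2 < p → ¬ p ∣ D → M₁ ∣ p + 1 →
      (∀ P P' R : G, P = P' + (p + 1) • R → Ω p P = Ω p P') ∧
      (∀ P, ((Ω p P).ncard : ℝ) ≤ (1 - η) * (p : ℝ) ^ Fintype.card ι)) (B : Set (ι → ℤ))
    (hB : ∀ c ∈ B, ∀ N : ℕ, 1 ≤ N → ∃ P : G, ∀ p : ℕ, p.Prime → 2 < p → ¬ p ∣ D → M₁ ∣ p + 1 →
      p + 1 ∣ N → (fun i => (c i : ZMod p)) ∈ Ω p P) :
    ClassesG (GoodSS M₁) η B := by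
  classical
  obtain ⟨t, ht⟩ := Pool.Agent.H133R3.DC.cls G
  refine ⟨1, D + 1, t, ?_⟩
  rintro T M ⟨hM, hT⟩
  obtain ⟨A, hA1, hA2⟩ := ht M hM
  have hT' : ∀ p ∈ T, ¬ p ∣ D := by
    intro p hpT h
    have := Nat.le_of_dvd hD h
    have := (hT p hpT).2.1
    omega
  refine ⟨A, inferInstance, fun g p => Ω p g, ?_, ?_, ?_⟩
  · rw [Fintype.card_coe, one_mul]
    exact hA1
  · intro g p hpT
    obtain ⟨h1, -, h3, h4, -⟩ := hT p hpT
    exact (hp p h1 h3 (hT' p hpT) h4).2 g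
  · intro c hc
    obtain ⟨P, hP⟩ := hB c hc M hM
    obtain ⟨g, hg, R, hR⟩ := hA2 P
    refine ⟨⟨g, hg⟩, fun p hpT => ?_⟩
    obtain ⟨h1, -, h3, h4, h5⟩ := hT p hpT
    have h6 := hP p h1 h3 (hT' p hpT) h4 h5
    obtain ⟨w, hw⟩ := h5
    have h7 := (hp p h1 h3 (hT' p hpT) h4).1 P g (w • R) (by rw [hR, hw, mul_smul])
    rw [h7] at h6
    exact h6

theorem strongFG (G : Type) [AddCommGroup G] [AddGroup.FG G] (ι : Type) [Fintype ι] (M₁ D : ℕ)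
    (hM₁ : 0 < M₁) (hD : 0 < D) (Ω : (p : ℕ) → G → Set (ι → ZMod p)) (η : ℝ) (hη0 : 0 < η)
    (hη1 : η < 1)
    (hp : ∀ p : ℕ, p.Prime → 2 < p → ¬ p ∣ D → M₁ ∣ p + 1 →
      (∀ P P' R : G, P = P' + (p + 1) • R → Ω p P = Ω p P') ∧
      (∀ P, ((Ω p P).ncard : ℝ) ≤ (1 - η) * (p : ℝ) ^ Fintype.card ι)) (B : Set (ι → ℤ))
    (hB : ∀ c ∈ B, ∀ N : ℕ, 1 ≤ N → ∃ P : G, ∀ p : ℕ, p.Prime → 2 < p → ¬ p ∣ D → M₁ ∣ p + 1 →
      p + 1 ∣ N → (fun i => (c i : ZMod p)) ∈ Ω p P) : StrongNull B :=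
  strong_of_classesG (abundantSS M₁ hM₁) hη0 hη1 (classesFG G ι M₁ D hD Ω η hp B hB)

end Pool.Agent.Run7.h316.EQ.SS
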