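import Pool.Agent.Run7.h316.EQ.Tests
import Pool.Agent.N650.TH.Many

/-!
# The exceptional sets for the Tate conjecture for superelliptic surfaces are very null
-/

set_option autoImplicit false

namespace Pool.Agent.Run7.h316.EQ.Tate

open Polynomial Pool.Agent.Y160.T6
open Pool.Agent.Y160.SL (ManyWorks)
open Pool.Agent.Y160.T3 (place_R)
open Pool.Agent.Run7.h316.EQ (VeryNull veryNull_of_tests)

theorem bd_null {N p R : ℕ} (hp : 0 < p) (hR : 0 < R) (k : Type) [Field k] [NumberField k]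
    (T : ∀ (F : Type) [Field F], (Fin N → F) → Prop) (h : CntT p R N T) : VeryNull (Bd k T) := by
  classical
  obtain ⟨K₀, N₀, hK⟩ := h
  refine veryNull_of_tests (C := K₀ + 1) (Nat.succ_pos _) fun B => ?_
  obtain ⟨P, hP, hPB, hσ, hRP⟩ := place_R k (R := p * R) (Nat.mul_pos hp hR) (B + N₀)
  have : Fintype (ZMod P) := ZMod.fintype P
  have hcard : Fintype.card (ZMod P) = P := ZMod.card P
  have h1 := hK (ZMod P) (by rw [hcard]; exact (Dvd.intro _ rfl).trans hRP)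
    (by rw [hcard]; exact (Dvd.intro_left _ rfl).trans hRP) (by rw [hcard]; omega)
  rw [hcard] at h1
  refine ⟨P, by omega, hP.out, {v | T (ZMod P) v}, ?_, ?_⟩
  · rw [Fintype.card_fin]
    exact h1.trans (Nat.mul_le_mul (Nat.le_succ _) le_rfl)
  · intro v hv hmem
    exact hv P hσ hmem

open Pool.Agent.Y160.EN (ManyD St_cond St_irr St_R St_S)

theorem exc_null {p q n D r R : ℕ}
    (hp : p.Prime) (hq0 : 0 < q) (hn : 0 < n) (hD : 2 ≤ D) (hnr : n ≤ r + 1) (hqr : q * r < n + D)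
    (hR : Odd R) (hcop' : q.Coprime (R * (n + D))) (k : Type) [Field k] [NumberField k] :
    VeryNull (Exc p q n D r R k) := by
  have hI : St_irr := Pool.Agent.Y971.EN.irr2 Pool.Agent.Y100.EN.t_irr1
  have a1 := bd_null hp.pos hR.pos k (TU R n D r) (cU hD hR)
  have a2 := bd_null hp.pos hR.pos k (TH q R n D r) (cH hI hn hD hR hq0 hnr hqr hcop')
  have a3 := bd_null hp.pos hR.pos k (TC n D r) cC
  have a4 : VeryNull (⋃ i, Bd k (TP R n D r i)) :=
    VeryNull.iUnion fun i => bd_null hp.pos hR.pos k (TP R n D r i) (cP hR i)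
  have a5 : VeryNull (⋃ y : Fin n × (Fin n → Fin p), Bd k (TR p n D r y.1 y.2)) :=
    VeryNull.iUnion fun y => bd_null hp.pos hR.pos k (TR p n D r y.1 y.2)
      (cR Pool.Agent.Y430.EN.t_R hp hD y.1 y.2)
  have a6 : VeryNull (⋃ ε : Fin n → Fin p, Bd k (TS p q n D r ε)) :=
    VeryNull.iUnion fun ε => bd_null hp.pos hR.pos k (TS p q n D r ε)
      (cS Pool.Agent.Y737.EN.t_S hp hD hq0 hqr ε)
  exact a1.union (a2.union (a3.union (a4.union (a5.union a6))))

/-- The conditions for the numbers. -/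
def Cond (n D r p s R : ℕ) : Prop :=
  p.Prime ∧ p ^ (s + 1) * r < n + D ∧ p.Coprime (n + D) ∧ Odd R ∧ p.Coprime R

theorem works_of_exc {n D r p s R : ℕ} (hn : 0 < n) (hD : 2 ≤ D) (h : Cond n D r p s R)
    (k : Type) [Field k] [NumberField k] (ζ η : k) (hζ : IsPrimitiveRoot ζ (p ^ (s + 1)))
    (hη : η ^ p = -1) {v : Fin (n + (D + (r + 2))) → ℤ} (hv : v ∉ Exc p (p ^ (s + 1)) n D r R k) :
    ManyWorks p (p ^ (s + 1)) n D r R k v := by
  obtain ⟨hp, hqr, hcop, hR, hpR⟩ := h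
  obtain ⟨t1, t2, t3, t4, t5, t6⟩ := exc_some hv
  exact works_of Pool.Agent.Y833.EN.st_cond hp rfl hn hD hqr hcop hR hpR hζ hη t1 t2 t3 t4 t5 t6

theorem null_of {n D r p s R : ℕ} (hn : 0 < n) (hD : 2 ≤ D) (hnr : n ≤ r + 1)
    (h : Cond n D r p s R) (k : Type) [Field k] [NumberField k] :
    VeryNull (Exc p (p ^ (s + 1)) n D r R k) := by
  obtain ⟨hp, hqr, hcop, hR, hpR⟩ := h
  exact exc_null hp (Nat.pow_pos hp.pos) hn hD hnr hqr hR ((hpR.mul_right hcop).pow_left _) k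

/-- The data: numbers and a number field. -/
def Dat : Type := ℚ[X] × ℕ × ℕ × ℕ

instance : Countable Dat := by
  have h2 : Countable ℚ[X] := by
    rw [← Cardinal.mk_le_aleph0_iff]
    refine Polynomial.cardinalMk_le_max.trans ?_
    rw [max_le_iff]
    exact ⟨Cardinal.mk_le_aleph0_iff.2 inferInstance, le_rfl⟩
  unfold Dat
  infer_instance

/-- The exceptional set of the data. -/
def DBad (n D r : ℕ) (φ : Dat) : Set (Fin (n + (D + (r + 2))) → ℤ) :=
  {v | ∃ _ : Fact (Irreducible φ.1), Cond n D r φ.2.1 φ.2.2.1 φ.2.2.2 ∧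
    v ∈ Exc φ.2.1 (φ.2.1 ^ (φ.2.2.1 + 1)) n D r φ.2.2.2 (AdjoinRoot φ.1)}

theorem dbad_null {n D r : ℕ} (hn : 0 < n) (hD : 2 ≤ D) (hnr : n ≤ r + 1) (φ : Dat) :
    VeryNull (DBad n D r φ) := by
  classical
  obtain ⟨f, p, s, R⟩ := φ
  by_cases hyp : Irreducible f ∧ Cond n D r p s R
  · obtain ⟨hf, hc⟩ := hyp
    have hfF : Fact (Irreducible f) := ⟨hf⟩
    have hnf : NumberField (AdjoinRoot f) := Pool.Agent.N650.TH.numberField_adjoinRoot f
    refine VeryNull.mono ?_ (null_of hn hD hnr hc (AdjoinRoot f))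
    rintro v ⟨h1, h2, h3⟩
    exact h3
  · have hsub : DBad n D r (f, p, s, R) ⊆ ∅ := by
      rintro v ⟨⟨h1⟩, h2, -⟩
      exact absurd ⟨h1, h2⟩ hyp
    exact VeryNull.mono hsub Pool.Agent.Run7.h316.EQ.veryNull_empty

/-- every exceptional set is contained in one of the countable family -/
theorem exc_cover {n D r p s R : ℕ} (h : Cond n D r p s R) (k : Type) [Field k] [NumberField k] :
    ∃ φ : Dat, Exc p (p ^ (s + 1)) n D r R k ⊆ DBad n D r φ := by
  obtain ⟨f, hf, ⟨e⟩⟩ := Pool.Agent.N650.TH.exists_adjoinRoot k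
  refine ⟨(f, p, s, R), fun v hv => ⟨hf, h, ?_⟩⟩
  change v ∈ Exc p (p ^ (s + 1)) n D r R (AdjoinRoot f)
  rw [Pool.Agent.N650.TH.exc_congr e p (p ^ (s + 1)) n D r R]
  exact hv

end Pool.Agent.Run7.h316.EQ.Tate
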